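import Pool.Agent.J4H8.HP.Core3

/-!
# Project HP (MP_574a97_nt): job J9, functions on the residue field
-/

set_option autoImplicit false

open Polynomial Matrix

namespace Pool.Agent.J4H8.HP

open Pool.Agent.J4H98.HP

section basic

variable {Fq : Type} [Field Fq]

lemma val_sub {x y : Kinf Fq} {k : ℤ} (hx : Val k x) (hy : Val k y) : Val k (x - y) := by
  intro i hi
  rw [HahnSeries.coeff_sub, hx i hi, hy i hi, sub_zero]

lemma val_add {x y : Kinf Fq} {k : ℤ} (hx : Val k x) (hy : Val k y) : Val k (x + y) := by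
  intro i hi
  rw [HahnSeries.coeff_add, hx i hi, hy i hi, add_zero]

lemma val_neg {x : Kinf Fq} {k : ℤ} (hx : Val k x) : Val k (-x) := by
  intro i hi
  rw [HahnSeries.coeff_neg, hx i hi, neg_zero]

lemma val_single (k : ℤ) (a : Fq) : Val k (HahnSeries.single k a : Kinf Fq) := by
  intro i hi
  rw [HahnSeries.coeff_single, if_neg (by omega)]

lemma emb_CX (c : Fq) (j : ℕ) : emb Fq (Polynomial.C c * X ^ j) = HahnSeries.single (-(j : ℤ)) c := by
  unfold emb
  rw [Polynomial.coe_eval₂RingHom, Polynomial.eval₂_mul, Polynomial.eval₂_C, Polynomial.eval₂_pow,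
    Polynomial.eval₂_X, term]

lemma emb_C (c : Fq) : emb Fq (Polynomial.C c) = HahnSeries.C c := by
  unfold emb
  rw [Polynomial.coe_eval₂RingHom, Polynomial.eval₂_C]

lemma val_emb {p : Fq[X]} {d : ℕ} (h : p.natDegree ≤ d) : Val (-(d : ℤ)) (emb Fq p) := by
  intro i hi
  rw [emb_coeff, if_pos (by omega), Polynomial.coeff_eq_zero_of_natDegree_lt (by omega)]

lemma val_inv {n : Fq[X]} (hn : n ≠ 0) : Val (n.natDegree : ℤ) (emb Fq n)⁻¹ := by
  rw [val_iff (inv_ne_zero (emb_ne hn)), order_inv (emb_ne hn), emb_order hn, neg_neg]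

/-- `c T^j / n ≡ c π^(4-j)` -/
lemma approx {n : Fq[X]} (hn : n.Monic) (h4 : n.natDegree = 4) (c : Fq) (j : ℕ) :
    Val (5 - (j : ℤ)) (emb Fq (Polynomial.C c * X ^ j) / emb Fq n - HahnSeries.single (4 - (j : ℤ)) c) := by
  have hn0 := hn.ne_zero
  obtain ⟨r, hr⟩ : ∃ r, r = n - X ^ 4 := ⟨_, rfl⟩
  have hrd : r.natDegree ≤ 3 := by
    rw [Polynomial.natDegree_le_iff_coeff_eq_zero]
    intro i hi
    rw [hr, Polynomial.coeff_sub, Polynomial.coeff_X_pow]
    rcases eq_or_ne i 4 with h | h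
    · rw [h, if_pos rfl]
      have : n.coeff 4 = 1 := by rw [← h4]; exact hn
      rw [this, sub_self]
    · rw [if_neg h, Polynomial.coeff_eq_zero_of_natDegree_lt (by omega), sub_zero]
  have hne : n = X ^ 4 + r := by rw [hr]; ring
  have e4 : emb Fq n = HahnSeries.single (-4 : ℤ) (1 : Fq) + emb Fq r := by
    conv_lhs => rw [hne, map_add]
    congr 1
    have := emb_CX (1 : Fq) 4
    rw [map_one, one_mul] at this
    rw [this]
    norm_num
  have h1 : emb Fq (Polynomial.C c * X ^ j) / emb Fq n - HahnSeries.single (4 - (j : ℤ)) c =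
      -((emb Fq r * HahnSeries.single (4 - (j : ℤ)) c) * (emb Fq n)⁻¹) := by
    have hne0 : emb Fq n ≠ 0 := emb_ne hn0
    field_simp
    rw [emb_CX, e4]
    have h2 : HahnSeries.single (-4 : ℤ) (1 : Fq) * HahnSeries.single (4 - (j : ℤ)) c =
        HahnSeries.single (-(j : ℤ)) c := by
      rw [HahnSeries.single_mul_single]
      congr 1
      · ring
      · rw [one_mul]
    rw [← h2]
    ring
  rw [h1]
  have h2 := val_mul (val_mul (val_emb hrd) (val_single (4 - (j : ℤ)) c)) (val_inv hn0)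
  rw [h4] at h2
  have h3 := val_neg h2
  refine val_mono ?_ h3
  push_cast
  omega

end basic

section fam

variable {Fq : Type} [Field Fq] [Fintype Fq] {n : Fq[X]} {N : Type} [AddCommGroup N]
  {Φ : Matrix (Fin 2) (Fin 2) Fq[X] → ℤ → Kinf Fq → N}

lemma det_one' : IsUnit (1 : Matrix (Fin 2) (Fin 2) Fq[X]).det := by
  rw [Matrix.det_one]; exact isUnit_one

/-- periodicity at infinity -/
lemma per (hF : Fam0 n Φ) (k : ℤ) (u : Kinf Fq) (a : Fq[X]) : Φ 1 k (u + emb Fq a) = Φ 1 k u := by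
  have h1 := tr hF det_one' a k u
  rw [Matrix.one_mul] at h1
  have h2 := hF.inv 1 det_one' !![1, a; 0, 1] (det_tr a) (by
    show n ∣ 0
    exact dvd_zero n)
  rw [Matrix.mul_one] at h2
  rw [← h1, h2]

/-- homogeneity -/
lemma hom (hF : Fam0 n Φ) (k : ℤ) (u : Kinf Fq) {c : Fq} (hc : c ≠ 0) :
    Φ 1 k (HahnSeries.C c * u) = Φ 1 k u := by
  obtain ⟨γ, hγ⟩ : ∃ γ : Matrix (Fin 2) (Fin 2) Fq[X], γ = !![Polynomial.C c, 0; 0, 1] := ⟨_, rfl⟩
  have hdet : IsUnit γ.det := by
    rw [hγ, Matrix.det_fin_two_of]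
    simp only [mul_one, mul_zero, sub_zero]
    exact Polynomial.isUnit_C.2 (isUnit_iff_ne_zero.2 hc)
  have hden : den γ u = 1 := by rw [hγ]; unfold den; simp
  have hnum : num γ u = HahnSeries.C c * u := by
    rw [hγ]; unfold num; simp [emb_C]
  have e10 : γ 1 0 = 0 := by rw [hγ]; rfl
  have h1 := hF.moebA 1 γ det_one' hdet k u (by rw [hden]; exact one_ne_zero) (by
    rw [e10, map_zero]; exact val_zero _)
  have h2 := hF.inv 1 det_one' γ hdet (by rw [e10]; exact dvd_zero n)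
  rw [Matrix.mul_one] at h2
  rw [Matrix.one_mul, hden, hnum, HahnSeries.order_one, div_one, mul_zero, sub_zero, h2] at h1
  exact h1.symm

/-- the reversal at `0` -/
lemma rev (hF : Fam0 n Φ) (k : ℤ) : Φ 1 k 0 = -Φ !![0, 1; 1, 0] (1 - k) 0 := by
  have h := hF.moebB !![0, 1; 1, 0] !![0, 1; 1, 0] det_w det_w k 0
    (by show (1 : Fq[X]) ≠ 0; exact one_ne_zero) (by rw [den_w]; exact val_zero _)
  have e : (!![0, 1; 1, 0] : Matrix (Fin 2) (Fin 2) Fq[X]) 1 0 = 1 := rfl
  have e0 : (!![0, 1; 1, 0] : Matrix (Fin 2) (Fin 2) Fq[X]) 0 0 = 0 := rfl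
  rw [ww, e, e0, natDegree_one, map_zero, zero_div] at h
  rw [h]
  congr 2
  simp

/-- periodicity at the cusp `0` -/
lemma per0 (hF : Fam0 n Φ) (k : ℤ) (u : Kinf Fq) (a : Fq[X]) :
    Φ !![0, 1; 1, 0] k (u + emb Fq (n * a)) = Φ !![0, 1; 1, 0] k u := by
  have h1 := tr hF det_w (n * a) k u
  have e : (!![0, 1; 1, 0] : Matrix (Fin 2) (Fin 2) Fq[X]) * !![1, n * a; 0, 1] =
      !![1, 0; n * a, 1] * !![0, 1; 1, 0] := by
    ext i j
    fin_cases i <;> fin_cases j <;> simp [Matrix.mul_apply]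
  have h2 := hF.inv !![0, 1; 1, 0] det_w !![1, 0; n * a, 1] (by rw [Matrix.det_fin_two_of]; simp) (by
    show n ∣ n * a
    exact dvd_mul_right n a)
  rw [← h1, e, h2]

lemma zero5 (hn : n.Monic) (h4 : n.natDegree = 4) (hF : Fam n Φ) : Φ 1 5 0 = 0 := by
  have h0 := hF.toFam0
  rw [rev h0, neg_eq_zero]
  have e : (1 : ℤ) - 5 = -4 := by norm_num
  rw [e, h0.sum _ det_w]
  refine Finset.sum_eq_zero fun c _ => ?_
  have e2 : (-4 : ℤ) + 1 = -3 := by norm_num
  have e3 : (HahnSeries.single (-4 : ℤ) c : Kinf Fq) =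
      emb Fq (Polynomial.C c * (X ^ 4 - n)) + emb Fq (n * Polynomial.C c) := by
    rw [← map_add]
    have : Polynomial.C c * (X ^ 4 - n) + n * Polynomial.C c = Polynomial.C c * X ^ 4 := by ring
    rw [this, emb_CX]
    norm_num
  rw [e2, zero_add, e3, per0 h0]
  rw [h0.congr _ det_w (-3) _ 0, hF.cuspZero]
  rw [sub_zero]
  refine val_emb (d := 3) ?_
  rw [Polynomial.natDegree_le_iff_coeff_eq_zero]
  intro i hi
  rw [Polynomial.coeff_C_mul, Polynomial.coeff_sub, Polynomial.coeff_X_pow]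
  rcases eq_or_ne i 4 with h | h
  · rw [h, if_pos rfl]
    have : n.coeff 4 = 1 := by rw [← h4]; exact hn
    rw [this, sub_self, mul_zero]
  · rw [if_neg h, Polynomial.coeff_eq_zero_of_natDegree_lt (by omega), sub_zero, mul_zero]

lemma pol_snoc {m : ℕ} (v : Fin m → Fq) (c : Fq) :
    pol (Fin.snoc v c : Fin (m + 1) → Fq) = pol v + Polynomial.C c * X ^ m := by
  unfold pol
  rw [Fin.sum_univ_castSucc]
  simp [Fin.snoc_castSucc, Fin.snoc_last]

/-- refinement of a ball -/
lemma refine5 (hn : n.Monic) (h4 : n.natDegree = 4) (hF : Fam0 n Φ) (j : ℕ) : ∀ r : Fq[X],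
    Φ 1 (5 - (j : ℤ)) (emb Fq r / emb Fq n) =
      ∑ v : Fin j → Fq, Φ 1 5 (emb Fq (r + pol v) / emb Fq n) := by
  induction j with
  | zero =>
    intro r
    rw [Fintype.sum_unique]
    have : pol (default : Fin 0 → Fq) = 0 := by unfold pol; simp
    rw [this, add_zero]
    simp
  | succ j ih =>
    intro r
    have e : (5 : ℤ) - ((j + 1 : ℕ) : ℤ) + 1 = 5 - j := by push_cast; ring
    have e' : (5 : ℤ) - ((j + 1 : ℕ) : ℤ) = 4 - j := by push_cast; ring
    rw [hF.sum 1 det_one', e, e']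
    have h1 : ∀ c : Fq, Φ 1 (5 - (j : ℤ)) (emb Fq r / emb Fq n + HahnSeries.single (4 - (j : ℤ)) c) =
        ∑ v : Fin j → Fq, Φ 1 5 (emb Fq (r + pol (Fin.snoc v c : Fin (j + 1) → Fq)) / emb Fq n) := by
      intro c
      rw [hF.congr 1 det_one' _ _ (emb Fq (r + Polynomial.C c * X ^ j) / emb Fq n), ih]
      · refine Finset.sum_congr rfl fun v _ => ?_
        rw [pol_snoc]
        congr 3
        ring
      · have h2 := val_neg (approx hn h4 c j)
        have e3 : emb Fq r / emb Fq n + HahnSeries.single (4 - (j : ℤ)) c -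
            emb Fq (r + Polynomial.C c * X ^ j) / emb Fq n =
            -(emb Fq (Polynomial.C c * X ^ j) / emb Fq n - HahnSeries.single (4 - (j : ℤ)) c) := by
          rw [map_add, add_div]
          ring
        rw [e3]
        exact h2
    simp_rw [h1]
    rw [← Finset.sum_product']
    refine Finset.sum_bij (fun (x : Fq × (Fin j → Fq)) _ => (Fin.snoc x.2 x.1 : Fin (j + 1) → Fq))
      (fun _ _ => Finset.mem_univ _) ?_ ?_ (fun _ _ => rfl)
    · rintro ⟨c, v⟩ _ ⟨c', v'⟩ _ h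
      have h2 := congrFun h (Fin.last j)
      simp only [Fin.snoc_last] at h2
      have h3 : v = v' := by
        funext i
        have h3 := congrFun h i.castSucc
        simp only [Fin.snoc_castSucc] at h3
        exact h3
      rw [h2, h3]
    · intro w _
      exact ⟨(w (Fin.last j), fun i => w i.castSucc), Finset.mem_product.2 ⟨Finset.mem_univ _, Finset.mem_univ _⟩, Fin.snoc_init_self w⟩

lemma pol_deg' {m : ℕ} (v : Fin (m + 1) → Fq) : (pol v).natDegree ≤ m := by
  rw [Polynomial.natDegree_le_iff_coeff_eq_zero]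
  intro i hi
  rw [pol_coeff, dif_neg (by omega)]

/-- the residues -/
lemma res_bij {κ : Type} [Field κ] [Fintype κ] [Algebra Fq κ] (ev : Fq[X] →ₐ[Fq] κ) (hn : n.Monic)
    (h4 : n.natDegree = 4) (hs : Function.Surjective ev) (hk : ∀ b, ev b = 0 ↔ n ∣ b) :
    Function.Bijective fun v : Fin 4 → Fq => ev (pol v) := by
  constructor
  · intro v w h
    simp only at h
    rw [← sub_eq_zero, ← map_sub, hk] at h
    by_contra hne
    have h0 : pol v - pol w ≠ 0 := fun h' => hne (pol_inj (sub_eq_zero.1 h'))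
    have h1 := Polynomial.natDegree_le_of_dvd h h0
    have h2 := pol_deg v w
    omega
  · intro b
    obtain ⟨p, hp⟩ := hs b
    refine ⟨fun i => (p %ₘ n).coeff i, ?_⟩
    have h1 : pol (fun i : Fin 4 => (p %ₘ n).coeff i) = p %ₘ n := by
      ext i
      rw [pol_coeff]
      split_ifs with h
      · rfl
      · refine (Polynomial.coeff_eq_zero_of_natDegree_lt (lt_of_lt_of_le (Polynomial.natDegree_modByMonic_lt p hn ?_) ?_)).symm
        · intro h'
          rw [h', natDegree_one] at h4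
          omega
        · omega
    simp only
    rw [h1, ← hp, ← sub_eq_zero, ← map_sub, hk]
    refine ⟨-(p /ₘ n), ?_⟩
    have := Polynomial.modByMonic_add_div p n
    linear_combination this

end fam

theorem t_CORE1A : S_CORE1A := by
  intro Fq κ _ _ _ _ _ n ev N _ Φ hn h4 hs hk hF
  have h0 := hF.toFam0
  have hn0 : emb Fq n ≠ 0 := emb_ne hn.ne_zero
  have hwell : ∀ b b' : Fq[X], ev b = ev b' → Φ 1 5 (emb Fq b / emb Fq n) = Φ 1 5 (emb Fq b' / emb Fq n) := by
    intro b b' h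
    rw [← sub_eq_zero, ← map_sub, hk] at h
    obtain ⟨a, ha⟩ := h
    have e : emb Fq b / emb Fq n = emb Fq b' / emb Fq n + emb Fq a := by
      have : b = b' + n * a := by rw [← ha]; ring
      rw [this, map_add, map_mul]
      field_simp
    rw [e, per h0]
  obtain ⟨Gf, hGf⟩ : ∃ Gf : κ → N, ∀ b, Gf (ev b) = Φ 1 5 (emb Fq b / emb Fq n) :=
    ⟨fun x => Φ 1 5 (emb Fq (Function.surjInv hs x) / emb Fq n), fun b =>
      hwell _ _ (Function.surjInv_eq hs (ev b))⟩
  have hhom : ∀ c : Fq, c ≠ 0 → ∀ b, Gf (algebraMap Fq κ c * b) = Gf b := by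
    intro c hc b
    obtain ⟨p, rfl⟩ := hs b
    have e : algebraMap Fq κ c * ev p = ev (Polynomial.C c * p) := by
      rw [map_mul]
      congr 1
      exact (ev.commutes c).symm
    rw [e, hGf, hGf, map_mul, emb_C, mul_div_assoc, hom h0 _ _ hc]
  have hone : ∀ (r : Fq[X]), Φ 1 4 (emb Fq r / emb Fq n) = ∑ x : Fq, Gf (ev r + algebraMap Fq κ x) := by
    intro r
    have h1 := refine5 hn h4 h0 1 r
    have e1 : (5 : ℤ) - ((1 : ℕ) : ℤ) = 4 := by norm_num
    rw [e1] at h1
    rw [h1]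
    refine Fintype.sum_equiv (Equiv.funUnique (Fin 1) Fq) _ _ fun v => ?_
    rw [← hGf, map_add]
    congr 2
    have : pol v = Polynomial.C (v 0) := by
      unfold pol
      simp
    rw [this]
    exact ev.commutes _
  refine ⟨Gf, hGf, hhom, ?_, ?_, ?_, ?_⟩
  · have := hGf 0
    rw [map_zero, map_zero, zero_div, zero5 hn h4 hF] at this
    exact this
  · have h1 := hone 0
    rw [map_zero, map_zero, zero_div, rev h0] at h1
    have e : (1 : ℤ) - 4 = -3 := by norm_num
    rw [e, hF.cuspZero, neg_zero] at h1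
    rw [h1]
    refine Finset.sum_congr rfl fun x _ => ?_
    rw [zero_add]
  · intro b hb
    obtain ⟨p, rfl⟩ := hs b
    obtain ⟨p', hp'⟩ := hs (ev p)⁻¹
    have hpp : n ∣ p * p' - 1 := by
      rw [← hk, map_sub, map_mul, hp', map_one, mul_inv_cancel₀ hb, sub_self]
    obtain ⟨e, he⟩ := hpp
    obtain ⟨γ, hγ⟩ : ∃ γ : Matrix (Fin 2) (Fin 2) Fq[X], γ = !![p, e; n, p'] := ⟨_, rfl⟩
    have hdet : IsUnit γ.det := by
      rw [hγ, Matrix.det_fin_two_of]
      have : p * p' - e * n = 1 := by linear_combination he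
      rw [this]; exact isUnit_one
    have e10 : γ 1 0 = n := by rw [hγ]; rfl
    have e00 : γ 0 0 = p := by rw [hγ]; rfl
    have e11 : γ 1 1 = p' := by rw [hγ]; rfl
    have h1 := h0.moebB 1 γ det_one' hdet 4 (emb Fq (-p') / emb Fq n) (by rw [e10]; exact hn.ne_zero) (by
      unfold den
      rw [e10, e11, map_neg]
      have : emb Fq n * (-emb Fq p' / emb Fq n) + emb Fq p' = 0 := by
        field_simp
        ring
      rw [this]
      exact val_zero _)
    have h2 := h0.inv 1 det_one' γ hdet (by rw [e10])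
    rw [Matrix.mul_one] at h2
    rw [Matrix.one_mul, h2, e10, e00, h4] at h1
    have e3 : (1 : ℤ) - 4 + 2 * ((4 : ℕ) : ℤ) = 5 := by norm_num
    rw [e3, hone] at h1
    rw [hGf, ← neg_eq_iff_eq_neg, ← h1, ← hp']
    rw [← Equiv.sum_comp (Equiv.neg Fq)]
    refine Finset.sum_congr rfl fun x _ => ?_
    have h3 := hhom (-1) (neg_ne_zero.2 one_ne_zero) (ev p' + algebraMap Fq κ x)
    rw [← h3]
    congr 1
    simp only [Equiv.neg_apply, map_neg, map_one]
    ring
  · have h1 := refine5 hn h4 h0 4 0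
    have e1 : (5 : ℤ) - ((4 : ℕ) : ℤ) = 1 := by norm_num
    rw [e1, map_zero, zero_div, hF.cuspInf] at h1
    rw [h1]
    refine (Fintype.sum_bijective _ (res_bij ev hn h4 hs hk) _ _ fun v => ?_).symm
    rw [hGf, zero_add]

end Pool.Agent.J4H8.HP
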