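import Pool.Agent.J4H97.HP.Hk

/-!
# Project HP (MP_574a97_nt): job J7, commutativity of the Hecke operators

`T_m T_m' F = ∑ q^(deg e) W(α, β)`, the sum over monic `e, α, β` with `e ∣ m`, `e ∣ m'`,
`e² α β = m m'`, `(e α, n) = 1`, where `W(α, β)(g) = ∑_c F((α c; 0 β) g)`.
-/

set_option autoImplicit false

open Polynomial Matrix

namespace Pool.Agent.J4H8.HP

open Pool.Agent.J4H98.HP
open Pool.Agent.J4H97.HP (pol_degree_lt pol_injective exists_pol gl_val gl_mul hmat pairs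
  pairs_finite hecke_eq det_hmat_ne)

section per

variable {Fq : Type} [Field Fq]

lemma pol_small {d : Fq[X]} (hd : d.Monic) {v w : Fin d.natDegree → Fq} (h : d ∣ pol v - pol w) :
    v = w := by
  apply pol_injective
  rw [← sub_eq_zero]
  refine Polynomial.eq_zero_of_dvd_of_degree_lt h ?_
  rw [degree_eq_natDegree hd.ne_zero]
  exact lt_of_le_of_lt (degree_sub_le _ _) (max_lt (pol_degree_lt v) (pol_degree_lt w))

variable [Fintype Fq] {N : Type} [AddCommGroup N]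

/-- complete residue systems -/
lemma crs {ι : Type} [Fintype ι] {D : Fq[X]} (hD : D.Monic) (r : ι → Fq[X])
    (hinj : ∀ i j, D ∣ r i - r j → i = j) (hcard : Fintype.card ι = Fintype.card Fq ^ D.natDegree)
    (f : Fq[X] → N) (hf : ∀ b e, f (b + D * e) = f b) :
    ∑ i, f (r i) = ∑ v : Fin D.natDegree → Fq, f (pol v) := by
  have hlt : ∀ b : Fq[X], (b %ₘ D).degree < (D.natDegree : ℕ) := by
    intro b
    rw [← degree_eq_natDegree hD.ne_zero]
    exact degree_modByMonic_lt _ hD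
  choose τ hτ using fun i : ι => exists_pol (hlt (r i))
  have hτinj : Function.Injective τ := by
    intro i j h
    apply hinj
    have h1 : r i %ₘ D = r j %ₘ D := by rw [← hτ, ← hτ, h]
    rw [← modByMonic_eq_zero_iff_dvd hD, sub_modByMonic, h1, sub_self]
  have hbij : Function.Bijective τ := (Fintype.bijective_iff_injective_and_card τ).2 ⟨hτinj, by
    rw [hcard, Fintype.card_fun, Fintype.card_fin]⟩
  rw [← hbij.sum_comp (fun v => f (pol v))]
  refine Finset.sum_congr rfl fun i _ => ?_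
  rw [hτ]
  conv_lhs => rw [← modByMonic_add_div (r i) D]
  exact hf _ _

lemma split_sum {d e : Fq[X]} (hd : d.Monic) (he : e.Monic) (f : Fq[X] → N)
    (hf : ∀ b x, f (b + d * e * x) = f b) :
    ∑ v : Fin d.natDegree → Fq, ∑ w : Fin e.natDegree → Fq, f (pol v + d * pol w) =
    ∑ c : Fin (d * e).natDegree → Fq, f (pol c) := by
  rw [← Fintype.sum_prod_type']
  refine crs (hd.mul he) (fun p : (Fin d.natDegree → Fq) × (Fin e.natDegree → Fq) =>
    pol p.1 + d * pol p.2) ?_ ?_ f hf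
  · rintro ⟨v, w⟩ ⟨v', w'⟩ h
    simp only at h
    have h1 : d ∣ pol v - pol v' := by
      have h2 : d ∣ pol v + d * pol w - (pol v' + d * pol w') := (dvd_mul_right d e).trans h
      have h3 : pol v - pol v' = (pol v + d * pol w - (pol v' + d * pol w')) - d * (pol w - pol w') := by
        ring
      rw [h3]
      exact dvd_sub h2 (dvd_mul_right d _)
    have h4 := pol_small hd h1
    subst h4
    have h5 : d * e ∣ d * (pol w - pol w') := by
      have : d * (pol w - pol w') = pol v + d * pol w - (pol v + d * pol w') := by ring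
      rw [this]; exact h
    rw [pol_small he ((mul_dvd_mul_iff_left hd.ne_zero).1 h5)]
  · rw [Fintype.card_prod, Fintype.card_fun, Fintype.card_fun, Fintype.card_fin, Fintype.card_fin,
      ← pow_add, hd.natDegree_mul he]

lemma red_sum {d e : Fq[X]} (hd : d.Monic) (he : e.Monic) (f : Fq[X] → N)
    (hf : ∀ b x, f (b + d * x) = f b) :
    ∑ c : Fin (e * d).natDegree → Fq, f (pol c) =
      (Fintype.card Fq ^ e.natDegree) • ∑ v : Fin d.natDegree → Fq, f (pol v) := by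
  rw [mul_comm e d, ← split_sum hd he f fun b x => by rw [mul_assoc]; exact hf _ _, Finset.smul_sum]
  refine Finset.sum_congr rfl fun v _ => ?_
  rw [Finset.sum_congr rfl fun w _ => hf _ _, Finset.sum_const, Finset.card_univ, Fintype.card_fun,
    Fintype.card_fin]

/-- the main counting identity -/
lemma star {e δ α' d' : Fq[X]} (he : e.Monic) (hδ : δ.Monic) (hd' : d'.Monic)
    (hc : IsCoprime α' δ) (φ : Fq[X] → N) (hφ : ∀ b x, φ (b + δ * d' * x) = φ b) :
    ∑ v : Fin (e * δ).natDegree → Fq, ∑ w : Fin d'.natDegree → Fq,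
      φ (α' * pol v + δ * pol w) =
    (Fintype.card Fq ^ e.natDegree) • ∑ c : Fin (δ * d').natDegree → Fq, φ (pol c) := by
  obtain ⟨ψ, hψ⟩ : ∃ ψ : Fq[X] → N, ∀ x, ψ x = ∑ w : Fin d'.natDegree → Fq, φ (x + δ * pol w) :=
    ⟨_, fun _ => rfl⟩
  have hper : ∀ b x, ψ (b + δ * x) = ψ b := by
    intro b x
    rw [hψ, hψ]
    have h1 := crs hd' (fun w : Fin d'.natDegree → Fq => x + pol w) (by
      intro i j h
      refine pol_small hd' ?_
      have : pol i - pol j = x + pol i - (x + pol j) := by ring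
      rw [this]; exact h) (by rw [Fintype.card_fun, Fintype.card_fin]) (fun y => φ (b + δ * y)) (by
      intro y z
      have : b + δ * (y + d' * z) = b + δ * y + δ * d' * z := by ring
      rw [this, hφ])
    rw [← h1]
    refine Finset.sum_congr rfl fun w _ => ?_
    congr 1
    ring
  have h1 : ∀ v : Fin (e * δ).natDegree → Fq, ∑ w : Fin d'.natDegree → Fq,
      φ (α' * pol v + δ * pol w) = ψ (α' * pol v) := fun v => (hψ _).symm
  rw [Finset.sum_congr rfl fun v _ => h1 v,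
    red_sum hδ he (fun x => ψ (α' * x)) (fun b x => by
      have : α' * (b + δ * x) = α' * b + δ * (α' * x) := by ring
      rw [this, hper]),
    crs hδ (fun v : Fin δ.natDegree → Fq => α' * pol v) (by
      intro i j h
      refine pol_small hδ ?_
      rw [← mul_sub] at h
      exact hc.symm.dvd_of_dvd_mul_left h) (by rw [Fintype.card_fun, Fintype.card_fin]) ψ hper,
    ← split_sum hδ hd' φ hφ]
  simp_rw [hψ]

end per

section mat

variable {Fq : Type} [Field Fq]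

lemma det_up {α β : Fq[X]} (x : Fq[X]) (hα : α.Monic) (hβ : β.Monic) :
    (!![emb Fq α, emb Fq x; 0, emb Fq β] : Matrix (Fin 2) (Fin 2) (Kinf Fq)).det ≠ 0 := by
  rw [Matrix.det_fin_two_of, mul_zero, sub_zero]
  exact mul_ne_zero (J4H97.HP.emb_ne hα.ne_zero) (J4H97.HP.emb_ne hβ.ne_zero)

lemma det_diag {z : Kinf Fq} (hz : z ≠ 0) :
    (!![z, 0; 0, z] : Matrix (Fin 2) (Fin 2) (Kinf Fq)).det ≠ 0 := by
  rw [Matrix.det_fin_two_of, mul_zero, sub_zero]
  exact mul_ne_zero hz hz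

lemma diag_comm {z : Kinf Fq} (hz : z ≠ 0) (g : G Fq) : gl !![z, 0; 0, z] * g = g * gl !![z, 0; 0, z] := by
  apply Units.ext
  have h1 : (gl !![z, 0; 0, z] * g).1 = (gl !![z, 0; 0, z]).1 * g.1 := rfl
  have h2 : (g * gl !![z, 0; 0, z]).1 = g.1 * (gl !![z, 0; 0, z]).1 := rfl
  rw [h1, h2, gl_val (det_diag hz)]
  ext i j : 2
  fin_cases i <;> fin_cases j <;> simp [Matrix.mul_apply, mul_comm]

variable [Fintype Fq] {N : Type} [AddCommGroup N]

/-- the sum over the cosets with given diagonal -/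
noncomputable def Ws (F : G Fq → N) (g : G Fq) (α β : Fq[X]) : N :=
  ∑ c : Fin β.natDegree → Fq, F (gl (hmat α β c) * g)

lemma pair_sum {n : Fq[X]} {F : G Fq → N}
    (hz : ∀ g, ∀ z : Kinf Fq, z ≠ 0 → F (g * gl !![z, 0; 0, z]) = F g)
    (hg : ∀ γ ∈ Gam0 n, ∀ g, F (γ * g) = F g) (g : G Fq)
    {a e δ α' d' : Fq[X]} (ha : a.Monic) (he : e.Monic) (hδ : δ.Monic) (hα : α'.Monic) (hd' : d'.Monic)
    (hc : IsCoprime α' δ) :
    ∑ v : Fin (e * δ).natDegree → Fq, ∑ w : Fin d'.natDegree → Fq,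
      F (gl (hmat (e * α') d' w) * (gl (hmat a (e * δ) v) * g)) =
    (Fintype.card Fq ^ e.natDegree) • Ws F g (a * α') (δ * d') := by
  obtain ⟨φ, hφ⟩ : ∃ φ : Fq[X] → N, ∀ x, φ x =
      F (gl !![emb Fq (a * α'), emb Fq x; 0, emb Fq (δ * d')] * g) := ⟨_, fun _ => rfl⟩
  have hper : ∀ b x, φ (b + δ * d' * x) = φ b := by
    intro b x
    rw [hφ, hφ]
    have hu : (!![1, emb Fq x; 0, 1] : Matrix (Fin 2) (Fin 2) (Kinf Fq)).det ≠ 0 := by
      rw [Matrix.det_fin_two_of]; simp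
    have h1 : gl !![emb Fq (a * α'), emb Fq (b + δ * d' * x); 0, emb Fq (δ * d')] =
        gl !![1, emb Fq x; 0, 1] * gl !![emb Fq (a * α'), emb Fq b; 0, emb Fq (δ * d')] := by
      rw [← gl_mul hu (det_up b (ha.mul hα) (hδ.mul hd'))]
      congr 1
      ext i j : 2
      fin_cases i <;> fin_cases j <;> simp [Matrix.mul_apply]
      ring
    rw [h1, mul_assoc]
    refine hg _ ⟨1, x, 0, 1, by simp, dvd_zero _, ?_⟩ _
    rw [gl_val hu, map_one, map_zero]
  have hmain := star he hδ hd' hc φ hper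
  have h2 : ∀ (v : Fin (e * δ).natDegree → Fq) (w : Fin d'.natDegree → Fq),
      F (gl (hmat (e * α') d' w) * (gl (hmat a (e * δ) v) * g)) = φ (α' * pol v + δ * pol w) := by
    intro v w
    have hez : emb Fq e ≠ 0 := J4H97.HP.emb_ne he.ne_zero
    have h3 : gl (hmat (e * α') d' w) * gl (hmat a (e * δ) v) = gl !![emb Fq e, 0; 0, emb Fq e] *
        gl !![emb Fq (a * α'), emb Fq (α' * pol v + δ * pol w); 0, emb Fq (δ * d')] := by
      rw [← gl_mul (det_hmat_ne (he.mul hα) hd' w) (det_hmat_ne ha (he.mul hδ) v),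
        ← gl_mul (det_diag hez) (det_up _ (ha.mul hα) (hδ.mul hd'))]
      congr 1
      unfold hmat
      simp only [Matrix.mul_fin_two, map_mul, map_add, zero_mul, mul_zero, add_zero, zero_add]
      congr 1
      · ring_nf
    rw [← mul_assoc, h3, diag_comm hez, mul_assoc, diag_comm hez, ← mul_assoc, hz _ _ hez, hφ]
  rw [Finset.sum_congr rfl fun v _ => Finset.sum_congr rfl fun w _ => h2 v w, hmain]
  congr 1
  unfold Ws hmat
  exact Finset.sum_congr rfl fun c _ => hφ _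

end mat

section idx

variable {Fq : Type} [Field Fq]

/-- monic gcds -/
lemma gcd_ex {p q : Fq[X]} (hp : p.Monic) (hq : q.Monic) : ∃ e p₁ q₁ : Fq[X], e.Monic ∧ p₁.Monic ∧
    q₁.Monic ∧ p = e * p₁ ∧ q = e * q₁ ∧ IsCoprime p₁ q₁ := by
  classical
  obtain ⟨d, hd⟩ : ∃ d, d = EuclideanDomain.gcd p q := ⟨_, rfl⟩
  have hd0 : d ≠ 0 := by
    rintro h
    rw [h] at hd
    exact hp.ne_zero (EuclideanDomain.gcd_eq_zero_iff.1 hd.symm).1
  obtain ⟨e, he⟩ : ∃ e, e = d * Polynomial.C d.leadingCoeff⁻¹ := ⟨_, rfl⟩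
  have hlc : d.leadingCoeff ≠ 0 := Polynomial.leadingCoeff_ne_zero.2 hd0
  have hem : e.Monic := by rw [he]; exact Polynomial.monic_mul_leadingCoeff_inv hd0
  have hde : d = e * Polynomial.C d.leadingCoeff := by
    rw [he, mul_assoc, ← Polynomial.C_mul, inv_mul_cancel₀ hlc, Polynomial.C_1, mul_one]
  have hep : e ∣ p := by
    obtain ⟨x, hx⟩ := EuclideanDomain.gcd_dvd_left p q
    rw [← hd] at hx
    exact ⟨Polynomial.C d.leadingCoeff * x, by rw [← mul_assoc, ← hde]; exact hx⟩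
  have heq : e ∣ q := by
    obtain ⟨x, hx⟩ := EuclideanDomain.gcd_dvd_right p q
    rw [← hd] at hx
    exact ⟨Polynomial.C d.leadingCoeff * x, by rw [← mul_assoc, ← hde]; exact hx⟩
  obtain ⟨p₁, hp₁⟩ := hep
  obtain ⟨q₁, hq₁⟩ := heq
  refine ⟨e, p₁, q₁, hem, ?_, ?_, hp₁, hq₁, ?_⟩
  · exact hem.of_mul_monic_left (by rw [← hp₁]; exact hp)
  · exact hem.of_mul_monic_left (by rw [← hq₁]; exact hq)
  · have h1 := EuclideanDomain.gcd_eq_gcd_ab p q
    rw [← hd] at h1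
    generalize EuclideanDomain.gcdA p q = A at h1
    generalize EuclideanDomain.gcdB p q = B at h1
    refine ⟨Polynomial.C d.leadingCoeff⁻¹ * A, Polynomial.C d.leadingCoeff⁻¹ * B, ?_⟩
    have h2 : Polynomial.C d.leadingCoeff = p₁ * A + q₁ * B := by
      refine mul_left_cancel₀ hem.ne_zero ?_
      rw [← hde]
      calc d = p * A + q * B := h1
        _ = e * p₁ * A + e * q₁ * B := by rw [← hp₁, ← hq₁]
        _ = e * (p₁ * A + q₁ * B) := by ring
    calc Polynomial.C d.leadingCoeff⁻¹ * A * p₁ + Polynomial.C d.leadingCoeff⁻¹ * B * q₁ =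
        Polynomial.C d.leadingCoeff⁻¹ * (p₁ * A + q₁ * B) := by ring
      _ = Polynomial.C d.leadingCoeff⁻¹ * Polynomial.C d.leadingCoeff := by rw [h2]
      _ = 1 := by rw [← Polynomial.C_mul, inv_mul_cancel₀ hlc, Polynomial.C_1]

lemma gcd_uniq {e p q e' p' q' : Fq[X]} (he : e.Monic) (he' : e'.Monic) (h : IsCoprime p q)
    (h' : IsCoprime p' q') (h1 : e * p = e' * p') (h2 : e * q = e' * q') : e = e' ∧ p = p' ∧ q = q' := by
  have key : ∀ {e p q e' p' q' : Fq[X]}, IsCoprime p q → e * p = e' * p' → e * q = e' * q' →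
      e' ∣ e := by
    rintro e p q e' p' q' ⟨x, y, hxy⟩ h1 h2
    refine ⟨x * p' + y * q', ?_⟩
    calc e = e * (x * p + y * q) := by rw [hxy, mul_one]
      _ = x * (e * p) + y * (e * q) := by ring
      _ = x * (e' * p') + y * (e' * q') := by rw [h1, h2]
      _ = e' * (x * p' + y * q') := by ring
  have h3 : e = e' := Polynomial.eq_of_monic_of_associated he he'
    (associated_of_dvd_dvd (key h' h1.symm h2.symm) (key h h1 h2))
  subst h3
  exact ⟨rfl, mul_left_cancel₀ he.ne_zero h1, mul_left_cancel₀ he.ne_zero h2⟩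

/-- the symmetric index set -/
def Es (n m m' : Fq[X]) : Set (Fq[X] × Fq[X] × Fq[X]) :=
  {t | t.1.Monic ∧ t.2.1.Monic ∧ t.2.2.Monic ∧ t.1 ∣ m ∧ t.1 ∣ m' ∧
    t.1 * t.1 * (t.2.1 * t.2.2) = m * m' ∧ IsCoprime (t.1 * t.2.1) n}

/-- the parameter set: `(e, a, δ, α', d')` -/
def Qs (n m m' : Fq[X]) : Set (Fq[X] × Fq[X] × Fq[X] × Fq[X] × Fq[X]) :=
  {t | t.1.Monic ∧ t.2.1.Monic ∧ t.2.2.1.Monic ∧ t.2.2.2.1.Monic ∧ t.2.2.2.2.Monic ∧
    t.2.1 * (t.1 * t.2.2.1) = m ∧ t.1 * t.2.2.2.1 * t.2.2.2.2 = m' ∧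
    IsCoprime t.2.2.2.1 t.2.2.1 ∧ IsCoprime t.2.1 n ∧ IsCoprime (t.1 * t.2.2.2.1) n}

lemma bij_E {n m m' : Fq[X]} (hm : m.Monic) (hm' : m'.Monic) :
    Set.BijOn (fun t : Fq[X] × Fq[X] × Fq[X] × Fq[X] × Fq[X] =>
      (t.1, t.2.1 * t.2.2.2.1, t.2.2.1 * t.2.2.2.2)) (Qs n m m') (Es n m m') := by
  refine ⟨?_, ?_, ?_⟩
  · rintro ⟨e, a, δ, α, d⟩ ⟨he, ha, hδ, hα, hd, h1, h2, h3, h4, h5⟩
    simp only at he ha hδ hα hd h1 h2 h3 h4 h5
    refine ⟨he, ha.mul hα, hδ.mul hd, ⟨a * δ, by rw [← h1]; ring⟩, ⟨α * d, by rw [← h2]; ring⟩, ?_, ?_⟩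
    · simp only
      rw [← h1, ← h2]; ring
    · simp only
      have : e * (a * α) = a * (e * α) := by ring
      rw [this]
      exact h4.mul_left h5
  · rintro ⟨e, a, δ, α, d⟩ ⟨he, ha, hδ, hα, hd, h1, h2, h3, h4, h5⟩ ⟨e', a', δ', α', d'⟩
      ⟨he', ha', hδ', hα', hd', h1', h2', h3', h4', h5'⟩ h
    simp only at he ha hδ hα hd h1 h2 h3 h4 h5 he' ha' hδ' hα' hd' h1' h2' h3' h4' h5'
    simp only [Prod.mk.injEq] at h
    obtain ⟨h6, h7, h8⟩ := h
    subst h6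
    have h9 : a * δ = a' * δ' := by
      have : e * (a * δ) = e * (a' * δ') := by
        calc e * (a * δ) = a * (e * δ) := by ring
          _ = a' * (e * δ') := by rw [h1, h1']
          _ = e * (a' * δ') := by ring
      exact mul_left_cancel₀ he.ne_zero this
    obtain ⟨h10, h11, h12⟩ := gcd_uniq ha ha' h3 h3' h7 h9
    subst h10 h11 h12
    rw [mul_left_cancel₀ hδ.ne_zero h8]
  · rintro ⟨e, α, β⟩ ⟨he, hα, hβ, ⟨M, h1⟩, ⟨M', h2⟩, h3, h4⟩
    simp only at he hα hβ h1 h2 h3 h4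
    have hM : M.Monic := he.of_mul_monic_left (by rw [← h1]; exact hm)
    have hM' : M'.Monic := he.of_mul_monic_left (by rw [← h2]; exact hm')
    have h5 : α * β = M * M' := by
      refine mul_left_cancel₀ (mul_ne_zero he.ne_zero he.ne_zero) ?_
      rw [h3, h1, h2]; ring
    obtain ⟨a, α₁, δ, ha, hα₁, hδ, h6, h7, h8⟩ := gcd_ex hα hM
    have h9 : α₁ * β = δ * M' := by
      refine mul_left_cancel₀ ha.ne_zero ?_
      rw [← mul_assoc, ← h6, h5, h7]; ring
    have h10 : δ ∣ β := h8.symm.dvd_of_dvd_mul_left ⟨M', h9⟩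
    obtain ⟨d, hd⟩ := h10
    have h11 : α₁ * d = M' := by
      refine mul_left_cancel₀ hδ.ne_zero ?_
      rw [← h9, hd]; ring
    have hdm : d.Monic := hδ.of_mul_monic_left (by rw [← hd]; exact hβ)
    refine ⟨(e, a, δ, α₁, d), ⟨he, ha, hδ, hα₁, hdm, ?_, ?_, h8, ?_, ?_⟩, ?_⟩
    · simp only
      rw [h1, h7]; ring
    · simp only
      rw [h2, ← h11]; ring
    · simp only
      refine IsCoprime.of_isCoprime_of_dvd_left h4 ⟨e * α₁, ?_⟩
      rw [h6]; ring
    · simp only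
      refine IsCoprime.of_isCoprime_of_dvd_left h4 ⟨a, ?_⟩
      rw [h6]; ring
    · simp only
      rw [← h6, ← hd]

lemma bij_P {n m m' : Fq[X]} :
    Set.BijOn (fun t : Fq[X] × Fq[X] × Fq[X] × Fq[X] × Fq[X] =>
      ((t.2.1, t.1 * t.2.2.1), (t.1 * t.2.2.2.1, t.2.2.2.2))) (Qs n m m')
      (pairs n m ×ˢ pairs n m') := by
  refine ⟨?_, ?_, ?_⟩
  · rintro ⟨e, a, δ, α, d⟩ ⟨he, ha, hδ, hα, hd, h1, h2, h3, h4, h5⟩
    exact ⟨⟨ha, he.mul hδ, h1, h4⟩, ⟨he.mul hα, hd, h2, h5⟩⟩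
  · rintro ⟨e, a, δ, α, d⟩ ⟨he, ha, hδ, hα, hd, h1, h2, h3, h4, h5⟩ ⟨e', a', δ', α', d'⟩
      ⟨he', ha', hδ', hα', hd', h1', h2', h3', h4', h5'⟩ h
    simp only [Prod.mk.injEq] at h
    obtain ⟨⟨h6, h7⟩, ⟨h8, h9⟩⟩ := h
    obtain ⟨h10, h11, h12⟩ := gcd_uniq he he' h3 h3' h8 h7
    subst h10 h11 h12 h6 h9
    rfl
  · rintro ⟨⟨a, d⟩, ⟨a', d'⟩⟩ ⟨⟨ha, hd, h1, h2⟩, ⟨ha', hd', h3, h4⟩⟩
    simp only at ha hd h1 h2 ha' hd' h3 h4
    obtain ⟨e, α, δ, he, hα, hδ, h5, h6, h7⟩ := gcd_ex ha' hd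
    refine ⟨(e, a, δ, α, d'), ⟨he, ha, hδ, hα, hd', ?_, ?_, h7, h2, ?_⟩, ?_⟩
    · simp only
      rw [← h6]; exact h1
    · simp only
      rw [← h5]; exact h3
    · simp only
      rw [← h5]; exact h4
    · simp only
      rw [← h5, ← h6]

lemma Es_symm (n m m' : Fq[X]) : Es n m m' = Es n m' m := by
  ext ⟨e, α, β⟩
  unfold Es
  simp only [Set.mem_ofPred_eq]
  rw [mul_comm m m']
  tauto

end idx

theorem dbl {Fq : Type} [Field Fq] [Fintype Fq] {n m m' : Fq[X]} {N : Type} [AddCommGroup N]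
    {F : G Fq → N} (hm : m.Monic) (hm' : m'.Monic)
    (hz : ∀ g, ∀ z : Kinf Fq, z ≠ 0 → F (g * gl !![z, 0; 0, z]) = F g)
    (hg : ∀ γ ∈ Gam0 n, ∀ g, F (γ * g) = F g) (g : G Fq) :
    hecke n m (hecke n m' F) g = ∑ᶠ t ∈ Es n m m',
      (Fintype.card Fq ^ t.1.natDegree) • Ws F g t.2.1 t.2.2 := by
  classical
  rw [← finsum_mem_eq_of_bijOn _ (bij_E hm hm') (f := fun t =>
    (Fintype.card Fq ^ t.1.natDegree) • Ws F g (t.2.1 * t.2.2.2.1) (t.2.2.1 * t.2.2.2.2))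
    (fun t _ => rfl)]
  rw [finsum_mem_eq_of_bijOn _ (bij_P (n := n) (m := m) (m' := m')) (g := fun z =>
    ∑ v : Fin z.1.2.natDegree → Fq, ∑ w : Fin z.2.2.natDegree → Fq,
      F (gl (hmat z.2.1 z.2.2 w) * (gl (hmat z.1.1 z.1.2 v) * g)))]
  · rw [hecke_eq, finsum_mem_eq_finite_toFinset_sum _ (pairs_finite n m)]
    have h1 : (pairs n m ×ˢ pairs n m') =
        (((pairs_finite n m).toFinset ×ˢ (pairs_finite n m').toFinset : Finset _) : Set _) := by
      rw [Finset.coe_product, Set.Finite.coe_toFinset, Set.Finite.coe_toFinset]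
    rw [h1, finsum_mem_coe_finset, Finset.sum_product]
    refine Finset.sum_congr rfl fun x _ => ?_
    have h2 : ∑ v : Fin x.2.natDegree → Fq, hecke n m' F (gl (hmat x.1 x.2 v) * g) =
        ∑ v : Fin x.2.natDegree → Fq, ∑ x' ∈ (pairs_finite n m').toFinset,
          ∑ w : Fin x'.2.natDegree → Fq, F (gl (hmat x'.1 x'.2 w) * (gl (hmat x.1 x.2 v) * g)) := by
      refine Finset.sum_congr rfl fun v _ => ?_
      rw [hecke_eq, finsum_mem_eq_finite_toFinset_sum _ (pairs_finite n m')]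
    exact h2.trans Finset.sum_comm
  · rintro ⟨e, a, δ, α, d⟩ ⟨he, ha, hδ, hα, hd, h1, h2, h3, h4, h5⟩
    exact (pair_sum hz hg g ha he hδ hα hd h3).symm

theorem t_COMM : S_COMM := by
  intro Fq _ _ n m m' N _ F hn hi hm hm' hz hg
  funext g
  rw [dbl hm hm' hz hg, dbl hm' hm hz hg, Es_symm]

end Pool.Agent.J4H8.HP
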