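import Pool.Agent.J4H8.HP.Core1a

/-!
# Project HP (MP_574a97_nt): job J10, the Hecke condition on the residue field
-/

set_option autoImplicit false

open Polynomial Matrix

namespace Pool.Agent.J4H8.HP

open Pool.Agent.J4H98.HP

section L

variable {Fq : Type} [Field Fq]

lemma val_mul_iff {x y : Kinf Fq} (hx : x ≠ 0) (k : ℤ) : Val (k + x.order) (x * y) ↔ Val k y := by
  constructor
  · intro h
    have h1 := val_mul h (show Val (-x.order) x⁻¹ from by
      rw [val_iff (inv_ne_zero hx), order_inv hx])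
    have e : x * y * x⁻¹ = y := by field_simp
    have e2 : k + x.order + -x.order = k := by ring
    rwa [e, e2] at h1
  · intro h
    have h1 := val_mul h (show Val x.order x from (val_iff hx _).2 le_rfl)
    rwa [mul_comm y x] at h1

/-- the coefficient of `π` of `p / n` -/
noncomputable def Lc (n p : Fq[X]) : Fq := (emb Fq p / emb Fq n).coeff 1

lemma Lc_add (n p r : Fq[X]) : Lc n (p + r) = Lc n p + Lc n r := by
  unfold Lc
  rw [map_add, add_div, HahnSeries.coeff_add]

lemma Lc_smul (n : Fq[X]) (c : Fq) (p : Fq[X]) : Lc n (Polynomial.C c * p) = c * Lc n p := by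
  unfold Lc
  rw [map_mul, emb_C, mul_div_assoc, HahnSeries.C_mul_eq_smul, HahnSeries.coeff_smul, smul_eq_mul]

lemma Lc_dvd {n p : Fq[X]} (hn : n ≠ 0) (h : n ∣ p) : Lc n p = 0 := by
  obtain ⟨a, rfl⟩ := h
  unfold Lc
  rw [map_mul, mul_div_cancel_left₀ _ (emb_ne hn), emb_coeff, if_neg (by omega)]

lemma Lc_top {n : Fq[X]} (hn : n.Monic) (h4 : n.natDegree = 4) : Lc n (X ^ 3) = 1 := by
  have h := approx hn h4 (1 : Fq) 3 1 (by norm_num)
  rw [HahnSeries.coeff_sub, map_one, one_mul] at h
  unfold Lc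
  rw [sub_eq_zero.1 h]
  norm_num

end L

section ball

variable {Fq : Type} [Field Fq] [Fintype Fq] {n : Fq[X]} {N : Type} [AddCommGroup N]
  {Φ : Matrix (Fin 2) (Fin 2) Fq[X] → ℤ → Kinf Fq → N}

open Classical in
/-- a ball of radius `k`, `1 ≤ k ≤ 5`, as a union of balls of radius `5` -/
lemma ball (hn : n.Monic) (h4 : n.natDegree = 4) (hF : Fam0 n Φ) (k : ℤ) (h1 : 1 ≤ k) (h5 : k ≤ 5)
    (y : Kinf Fq) (hy : Val 1 y) :
    Φ 1 k y = ∑ w : Fin 4 → Fq, if Val k (emb Fq (pol w) / emb Fq n - y) then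
      Φ 1 5 (emb Fq (pol w) / emb Fq n) else 0 := by
  have hn0 : emb Fq n ≠ 0 := emb_ne hn.ne_zero
  have hord : (emb Fq n).order = -4 := by rw [emb_order hn.ne_zero, h4]; norm_num
  obtain ⟨r, hr⟩ := poly_part (emb Fq n * y)
  have hrd : r.natDegree ≤ 3 := by
    rw [Polynomial.natDegree_le_iff_coeff_eq_zero]
    intro i hi
    have h2 := hr (-(i : ℤ)) (by omega)
    rw [HahnSeries.coeff_sub, emb_coeff, if_pos (by omega), neg_neg, Int.toNat_natCast] at h2
    have h3 := (val_mul_iff hn0 1 (y := y)).2 hy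
    rw [hord] at h3
    rw [h3 (-(i : ℤ)) (by omega), zero_sub, neg_eq_zero] at h2
    exact h2
  have hclose : Val 5 (emb Fq r / emb Fq n - y) := by
    rw [← val_mul_iff hn0, hord]
    have e : emb Fq n * (emb Fq r / emb Fq n - y) = -(emb Fq n * y - emb Fq r) := by
      field_simp
      ring
    rw [e]
    exact val_neg hr
  obtain ⟨j, hj⟩ : ∃ j : ℕ, k = 5 - (j : ℤ) := ⟨(5 - k).toNat, by omega⟩
  have hj4 : j ≤ 4 := by omega
  rw [hF.congr 1 det_one' k y (emb Fq r / emb Fq n) (by
    have := val_neg (val_mono h5 hclose)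
    rwa [neg_sub] at this), hj, refine5 hn h4 hF, ← Finset.sum_filter]
  have key : ∀ w : Fin 4 → Fq, Val (5 - (j : ℤ)) (emb Fq (pol w) / emb Fq n - y) ↔
      ∀ i, j ≤ i → (pol w - r).coeff i = 0 := by
    intro w
    have e1 : Val (5 - (j : ℤ)) (emb Fq (pol w) / emb Fq n - y) ↔
        Val (5 - (j : ℤ)) ((emb Fq n)⁻¹ * emb Fq (pol w - r)) := by
      have e2 : emb Fq (pol w) / emb Fq n - y =
          (emb Fq n)⁻¹ * emb Fq (pol w - r) + (emb Fq r / emb Fq n - y) := by
        rw [map_sub]
        field_simp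
        ring
      rw [e2]
      have h6 : Val (5 - (j : ℤ)) (emb Fq r / emb Fq n - y) := val_mono (by omega) hclose
      constructor
      · intro h
        have h7 := val_sub h h6
        rwa [add_sub_cancel_right] at h7
      · intro h
        exact val_add h h6
    rw [e1]
    have e3 : (5 : ℤ) - j = (1 - j) + ((emb Fq n)⁻¹).order := by
      rw [order_inv hn0, hord]; ring
    rw [e3, val_mul_iff (inv_ne_zero hn0)]
    constructor
    · intro h i hi
      have h8 := h (-(i : ℤ)) (by omega)
      rwa [emb_coeff, if_pos (by omega), neg_neg, Int.toNat_natCast] at h8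
    · intro h i hi
      rw [emb_coeff, if_pos (by omega)]
      exact h _ (by omega)
  have hpol : ∀ v : Fin j → Fq, pol (fun i : Fin 4 => (r + pol v).coeff i) = r + pol v := by
    intro v
    ext i
    rw [pol_coeff]
    split_ifs with h
    · rfl
    · rw [Polynomial.coeff_add, pol_coeff, dif_neg (by omega),
        Polynomial.coeff_eq_zero_of_natDegree_lt (by omega), add_zero]
  refine Finset.sum_bij (fun (v : Fin j → Fq) _ => fun i : Fin 4 => (r + pol v).coeff i) ?_ ?_ ?_ ?_
  · intro v _
    rw [Finset.mem_filter]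
    refine ⟨Finset.mem_univ _, (key _).2 fun i hi => ?_⟩
    rw [hpol, add_sub_cancel_left, pol_coeff, dif_neg (by omega)]
  · intro v _ v' _ h
    have h9 := hpol v
    rw [h, hpol v'] at h9
    exact pol_inj (add_left_cancel h9).symm
  · intro w hw
    rw [Finset.mem_filter] at hw
    have h10 := (key w).1 hw.2
    refine ⟨fun i : Fin j => (pol w - r).coeff i, Finset.mem_univ _, ?_⟩
    have h11 : pol (fun i : Fin j => (pol w - r).coeff i) = pol w - r := by
      ext i
      rw [pol_coeff]
      split_ifs with h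
      · rfl
      · rw [h10 i (by omega)]
    rw [h11]
    funext i
    rw [add_sub_cancel, pol_coeff, dif_pos i.2]
  · intro v _
    rw [hpol]

open Classical in
/-- the Hecke sum -/
lemma hsum (hn : n.Monic) (h4 : n.natDegree = 4) (hF : Fam0 n Φ) {g : Fq[X]} (hg : g.Monic)
    (hg3 : g.natDegree ≤ 3) :
    ∑ v : Fin g.natDegree → Fq,
      Φ 1 (g.natDegree + 2) ((unif Fq + emb Fq (pol v)) / emb Fq g) =
    ∑ w : Fin 4 → Fq, if Lc n (g * pol w) = 1 then Φ 1 5 (emb Fq (pol w) / emb Fq n) else 0 := by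
  have hn0 : emb Fq n ≠ 0 := emb_ne hn.ne_zero
  have hg0 : emb Fq g ≠ 0 := emb_ne hg.ne_zero
  have hordn : (emb Fq n).order = -4 := by rw [emb_order hn.ne_zero, h4]; norm_num
  have hordg : (emb Fq g).order = -(g.natDegree : ℤ) := emb_order hg.ne_zero
  have hy : ∀ v : Fin g.natDegree → Fq, Val 1 ((unif Fq + emb Fq (pol v)) / emb Fq g) := by
    intro v
    rw [← val_mul_iff hg0, mul_div_cancel₀ _ hg0, hordg]
    refine val_add (val_mono (by omega) (val_single 1 (1 : Fq))) ?_
    intro i hi
    rw [emb_coeff]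
    split_ifs with h
    · rw [pol_coeff, dif_neg (by omega)]
    · rfl
  simp_rw [fun v => ball hn h4 hF ((g.natDegree : ℤ) + 2) (by omega) (by omega) _ (hy v)]
  rw [Finset.sum_comm]
  refine Finset.sum_congr rfl fun w _ => ?_
  obtain ⟨z, hz⟩ : ∃ z, z = emb Fq g * (emb Fq (pol w) / emb Fq n) := ⟨_, rfl⟩
  have hz1 : z.coeff 1 = Lc n (g * pol w) := by
    rw [hz]; unfold Lc; rw [map_mul, mul_div_assoc]
  have hzd : ∀ i : ℤ, i < 1 - (g.natDegree : ℤ) → z.coeff i = 0 := by
    have h1 : Val 1 (emb Fq (pol w) / emb Fq n) := by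
      rw [← val_mul_iff hn0, mul_div_cancel₀ _ hn0, hordn]
      exact val_mono (by norm_num) (val_emb (pol_deg' w))
    have h2 := (val_mul_iff hg0 1).2 h1
    rw [hordg, ← hz] at h2
    exact fun i hi => h2 i (by omega)
  have key : ∀ v : Fin g.natDegree → Fq,
      Val ((g.natDegree : ℤ) + 2) (emb Fq (pol w) / emb Fq n - (unif Fq + emb Fq (pol v)) / emb Fq g) ↔
      (Lc n (g * pol w) = 1 ∧ v = fun i : Fin g.natDegree => z.coeff (-((i : ℕ) : ℤ))) := by
    intro v
    rw [← val_mul_iff hg0, hordg, mul_sub, mul_div_cancel₀ _ hg0, ← hz]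
    have e : (g.natDegree : ℤ) + 2 + -(g.natDegree : ℤ) = 2 := by ring
    rw [e]
    constructor
    · intro h
      constructor
      · have h3 := h 1 (by norm_num)
        rw [HahnSeries.coeff_sub, HahnSeries.coeff_add, hz1, emb_coeff, if_neg (by norm_num)] at h3
        unfold unif at h3
        rw [HahnSeries.coeff_single_same, add_zero, sub_eq_zero] at h3
        exact h3
      · funext i
        have h3 := h (-((i : ℕ) : ℤ)) (by omega)
        rw [HahnSeries.coeff_sub, HahnSeries.coeff_add, emb_coeff, if_pos (by omega), neg_neg,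
          Int.toNat_natCast, pol_coeff, dif_pos i.2] at h3
        unfold unif at h3
        rw [HahnSeries.coeff_single_of_ne (by omega), zero_add, sub_eq_zero] at h3
        exact h3.symm
    · rintro ⟨h3, h4'⟩ i hi
      rw [HahnSeries.coeff_sub, HahnSeries.coeff_add, emb_coeff]
      unfold unif
      rcases eq_or_ne i 1 with h | h
      · rw [h, if_neg (by norm_num), hz1, h3, HahnSeries.coeff_single_same]
        ring
      · rw [if_pos (by omega), HahnSeries.coeff_single_of_ne h, zero_add, pol_coeff]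
        split_ifs with h5
        · rw [h4']
          simp only
          rw [Int.toNat_of_nonneg (by omega), neg_neg, sub_self]
        · rw [hzd i (by omega), sub_zero]
  simp_rw [key]
  by_cases h : Lc n (g * pol w) = 1
  · simp [h]
  · simp [h]

end ball

theorem t_CORE1B : S_CORE1B := by
  intro Fq κ _ _ _ _ _ n ev N _ Φ Gf hn h4 hs hk hF hGf hhom hhecke
  classical
  have h0 := hF.toFam0
  have hwell : ∀ b b' : Fq[X], ev b = ev b' → Lc n b = Lc n b' := by
    intro b b' h
    rw [← sub_eq_zero, ← map_sub, hk] at h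
    have e : b = b' + (b - b') := by ring
    rw [e, Lc_add, Lc_dvd hn.ne_zero h, add_zero]
  have hev : ∀ (c : Fq) (p : Fq[X]), c • ev p = ev (Polynomial.C c * p) := by
    intro c p
    rw [map_mul, Algebra.smul_def]
    congr 1
    exact (ev.commutes c).symm
  obtain ⟨lam, hlam⟩ : ∃ lam : κ →ₗ[Fq] Fq, ∀ p, lam (ev p) = Lc n p :=
    ⟨{ toFun := fun x => Lc n (Function.surjInv hs x)
       map_add' := fun x y => by
        rw [← Lc_add]
        refine hwell _ _ ?_
        rw [map_add, Function.surjInv_eq hs, Function.surjInv_eq hs, Function.surjInv_eq hs]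
       map_smul' := fun c x => by
        rw [RingHom.id_apply, smul_eq_mul, ← Lc_smul]
        refine hwell _ _ ?_
        rw [← hev, Function.surjInv_eq hs, Function.surjInv_eq hs] },
      fun p => hwell _ _ (Function.surjInv_eq hs (ev p))⟩
  refine ⟨lam, ?_, ?_⟩
  · intro h
    have h1 := hlam (X ^ 3)
    rw [h, Lc_top hn h4, LinearMap.zero_apply] at h1
    exact zero_ne_one h1
  · intro g hg c hc
    obtain ⟨wg, hwg⟩ := (res_bij ev hn h4 hs hk).2 g
    simp only at hwg
    obtain ⟨p, hp⟩ : ∃ p, p = pol wg := ⟨_, rfl⟩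
    have hp0 : p ≠ 0 := by
      rintro h
      rw [← hp, h, map_zero] at hwg
      exact hg hwg.symm
    have hpd : p.natDegree ≤ 3 := by rw [hp]; exact pol_deg' wg
    obtain ⟨a, ha⟩ : ∃ a, a = p.leadingCoeff := ⟨_, rfl⟩
    have ha0 : a ≠ 0 := by rw [ha]; exact Polynomial.leadingCoeff_ne_zero.2 hp0
    obtain ⟨g₁, hg₁⟩ : ∃ g₁, g₁ = Polynomial.C a⁻¹ * p := ⟨_, rfl⟩
    have hpg : p = Polynomial.C a * g₁ := by
      rw [hg₁, ← mul_assoc, ← Polynomial.C_mul, mul_inv_cancel₀ ha0, Polynomial.C_1, one_mul]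
    have hmon : g₁.Monic := by
      rw [hg₁, mul_comm, ha]
      exact Polynomial.monic_mul_leadingCoeff_inv hp0
    have hdeg : g₁.natDegree ≤ 3 := by
      rw [hg₁, Polynomial.natDegree_C_mul (inv_ne_zero ha0)]
      exact hpd
    have hmain := hhecke g₁ hmon hdeg
    rw [hsum hn h4 h0 hmon hdeg] at hmain
    -- the scaling constant
    obtain ⟨c', hc'⟩ : ∃ c', c' = a⁻¹ * c := ⟨_, rfl⟩
    have hc'0 : c' ≠ 0 := by rw [hc']; exact mul_ne_zero (inv_ne_zero ha0) hc
    rw [finsum_mem_def, finsum_eq_sum_of_fintype]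
    simp_rw [Set.indicator_apply]
    refine Eq.trans ?_ hmain
    have hbij : Function.Bijective fun v : Fin 4 → Fq => algebraMap Fq κ c' * ev (pol v) := by
      have h2 : Function.Bijective fun x : κ => algebraMap Fq κ c' * x :=
        mulLeft_bijective₀ _ (by
          rw [Ne, map_eq_zero]
          exact hc'0)
      exact h2.comp (res_bij ev hn h4 hs hk)
    refine (Fintype.sum_bijective _ hbij _ _ fun v => ?_).symm
    rw [hhom c' hc'0, hGf]
    have e1 : g * (algebraMap Fq κ c' * ev (pol v)) = ev (Polynomial.C (a * c') * (g₁ * pol v)) := by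
      rw [← hwg, ← hp, ← hev, Algebra.smul_def, hpg, map_mul, map_mul, map_mul]
      have : ev (Polynomial.C a) = algebraMap Fq κ a := ev.commutes a
      rw [this]
      ring
    have e2 : a * c' = c := by rw [hc', ← mul_assoc, mul_inv_cancel₀ ha0, one_mul]
    have e3 : lam (g * (algebraMap Fq κ c' * ev (pol v))) = c * Lc n (g₁ * pol v) := by
      rw [e1, hlam, Lc_smul, e2]
    refine if_congr ?_ rfl rfl
    constructor
    · intro h
      show lam (g * (algebraMap Fq κ c' * ev (pol v))) = c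
      rw [e3, h, mul_one]
    · intro h
      have h5 : lam (g * (algebraMap Fq κ c' * ev (pol v))) = c := h
      rw [e3] at h5
      exact mul_left_cancel₀ hc (by rw [h5, mul_one])

end Pool.Agent.J4H8.HP
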