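import Pool.Agent.J4H8.HP.Core1b
import Pool.Agent.J4H98.HP.Jobs2

/-!
# Project HP (MP_574a97_nt), stage 2: job K16
-/

set_option autoImplicit false

open Polynomial Matrix

namespace Pool.Agent.J4H8.HP

open Pool.Agent.J4H98.HP

section L

variable {Fq : Type} [Field Fq]

lemma Lc_X (n p : Fq[X]) (j : ℕ) : Lc n (X ^ j * p) = (emb Fq p / emb Fq n).coeff ((j : ℤ) + 1) := by
  unfold Lc
  have h : emb Fq (X ^ j) = HahnSeries.single (-(j : ℤ)) (1 : Fq) := by
    have := emb_CX (1 : Fq) j
    rwa [Polynomial.C_1, one_mul] at this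
  rw [map_mul, mul_div_assoc, h]
  have e : (1 : ℤ) = ((j : ℤ) + 1) + (-(j : ℤ)) := by ring
  conv_lhs => rw [e]
  rw [HahnSeries.coeff_single_mul_add, one_mul]

lemma Lc_sum (n p : Fq[X]) (β : Fin 4 → Fq) :
    Lc n (pol β * p) = ∑ j : Fin 4, β j * (emb Fq p / emb Fq n).coeff (((j : ℕ) : ℤ) + 1) := by
  have h0 : Lc n (0 : Fq[X]) = 0 := by
    unfold Lc
    rw [map_zero, zero_div, HahnSeries.coeff_zero]
  unfold pol
  rw [Finset.sum_mul]
  have : ∀ s : Finset (Fin 4), Lc n (∑ i ∈ s, Polynomial.C (β i) * X ^ (i : ℕ) * p) =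
      ∑ j ∈ s, β j * (emb Fq p / emb Fq n).coeff (((j : ℕ) : ℤ) + 1) := by
    intro s
    classical
    induction s using Finset.induction_on with
    | empty => rw [Finset.sum_empty, Finset.sum_empty, h0]
    | insert a s ha ih =>
      rw [Finset.sum_insert ha, Finset.sum_insert ha, Lc_add, ih, mul_assoc, Lc_smul, Lc_X]
  exact this Finset.univ

/-- the first four digits of `p / n` -/
noncomputable def dig (n p : Fq[X]) (i : Fin 4) : Fq := (emb Fq p / emb Fq n).coeff (((i : ℕ) : ℤ) + 1)

lemma uu_coeff {k : ℕ} (w : Fin k → Fq) (i : ℤ) :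
    (uu w).coeff i = if h : 1 ≤ i ∧ i ≤ k then w ⟨(i - 1).toNat, by omega⟩ else 0 := by
  unfold uu
  rw [HahnSeries.coeff_sum]
  split_ifs with h
  · rw [Finset.sum_eq_single (⟨(i - 1).toNat, by omega⟩ : Fin k)]
    · simp only
      have : (((i - 1).toNat : ℕ) : ℤ) + 1 = i := by omega
      rw [this, HahnSeries.coeff_single_same]
    · intro b _ hb
      rw [HahnSeries.coeff_single_of_ne]
      intro hi
      apply hb
      apply Fin.ext
      simp only
      omega
    · intro h'
      exact absurd (Finset.mem_univ _) h'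
  · refine Finset.sum_eq_zero fun b _ => ?_
    rw [HahnSeries.coeff_single_of_ne]
    have := b.2
    omega

lemma val5_dig {n : Fq[X]} (hn : n.Monic) (h4 : n.natDegree = 4) {p : Fq[X]} (hp : p.natDegree ≤ 3) :
    Val 5 (emb Fq p / emb Fq n - uu (dig n p)) := by
  have hn0 : emb Fq n ≠ 0 := emb_ne hn.ne_zero
  have hordn : (emb Fq n).order = -4 := by rw [emb_order hn.ne_zero, h4]; norm_num
  have h1 : Val 1 (emb Fq p / emb Fq n) := by
    rw [← val_mul_iff hn0, mul_div_cancel₀ _ hn0, hordn]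
    exact val_mono (by norm_num) (val_emb hp)
  intro i hi
  rw [HahnSeries.coeff_sub, uu_coeff]
  split_ifs with h
  · unfold dig
    simp only
    have : (((i - 1).toNat : ℕ) : ℤ) + 1 = i := by omega
    rw [this, sub_self]
  · rw [sub_zero]
    refine h1 i ?_
    by_contra hc
    exact h ⟨by omega, by push_cast; omega⟩

lemma dig_bij [Fintype Fq] {n : Fq[X]} (hn : n.Monic) (h4 : n.natDegree = 4) :
    Function.Bijective fun v : Fin 4 → Fq => dig n (pol v) := by
  have hn0 : emb Fq n ≠ 0 := emb_ne hn.ne_zero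
  have hordn : (emb Fq n).order = -4 := by rw [emb_order hn.ne_zero, h4]; norm_num
  rw [Fintype.bijective_iff_injective_and_card]
  refine ⟨fun v w h => ?_, rfl⟩
  simp only at h
  have h1 := val5_dig hn h4 (pol_deg' v)
  have h2 := val5_dig hn h4 (pol_deg' w)
  rw [h] at h1
  have h3 := val_sub h1 h2
  have e : emb Fq (pol v) / emb Fq n - uu (dig n (pol w)) -
      (emb Fq (pol w) / emb Fq n - uu (dig n (pol w))) = emb Fq (pol v - pol w) / emb Fq n := by
    rw [map_sub]
    ring
  rw [e, ← val_mul_iff hn0, mul_div_cancel₀ _ hn0, hordn] at h3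
  apply pol_inj
  rw [← sub_eq_zero]
  ext i
  have h4' := h3 (-(i : ℤ)) (by omega)
  rw [emb_coeff, if_pos (by omega), neg_neg, Int.toNat_natCast] at h4'
  rw [h4', Polynomial.coeff_zero]

end L

theorem t_CORE1C : S_CORE1C := by
  intro Fq κ _ _ _ _ _ n ev N _ Φ Gf hn h4 hs hk hF hGf hhecke
  classical
  have h0 := hF.toFam0
  have hwell : ∀ b b' : Fq[X], ev b = ev b' → Lc n b = Lc n b' := by
    intro b b' h
    rw [← sub_eq_zero, ← map_sub, hk] at h
    have e : b = b' + (b - b') := by ring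
    rw [e, Lc_add, Lc_dvd hn.ne_zero h, add_zero]
  have hev : ∀ (c : Fq) (p : Fq[X]), c • ev p = ev (Polynomial.C c * p) := by
    intro c p
    rw [map_mul, Algebra.smul_def]
    congr 1
    exact (ev.commutes c).symm
  obtain ⟨lam, hlam⟩ : ∃ lam : κ →ₗ[Fq] Fq, ∀ p, lam (ev p) = Lc n p :=
    ⟨{ toFun := fun x => Lc n (Function.surjInv hs x)
       map_add' := fun x y => by
        rw [← Lc_add]
        refine hwell _ _ ?_
        rw [map_add, Function.surjInv_eq hs, Function.surjInv_eq hs, Function.surjInv_eq hs]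
       map_smul' := fun c x => by
        rw [RingHom.id_apply, smul_eq_mul, ← Lc_smul]
        refine hwell _ _ ?_
        rw [← hev, Function.surjInv_eq hs, Function.surjInv_eq hs] },
      fun p => hwell _ _ (Function.surjInv_eq hs (ev p))⟩
  refine ⟨lam, ?_, ?_⟩
  · intro h
    have h1 := hlam (X ^ 3)
    rw [h, Lc_top hn h4, LinearMap.zero_apply] at h1
    exact zero_ne_one h1
  · intro g hg c hc
    obtain ⟨β, hβ⟩ := (res_bij ev hn h4 hs hk).2 g
    simp only at hβ
    have hβ0 : β ≠ 0 := by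
      rintro rfl
      apply hg
      rw [← hβ]
      have : pol (0 : Fin 4 → Fq) = 0 := by
        ext i
        rw [pol_coeff, Polynomial.coeff_zero]
        split_ifs <;> rfl
      rw [this, map_zero]
    have hmain := hhecke β hβ0 c hc
    rw [finsum_mem_def, finsum_eq_sum_of_fintype] at hmain ⊢
    simp_rw [Set.indicator_apply] at hmain ⊢
    refine Eq.trans ?_ hmain
    rw [← (res_bij ev hn h4 hs hk).sum_comp]
    conv_rhs => rw [← (dig_bij hn h4).sum_comp]
    refine Finset.sum_congr rfl fun v _ => ?_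
    have e1 : lam (g * ev (pol v)) = ∑ i, β i * dig n (pol v) i := by
      rw [← hβ, ← map_mul, hlam, Lc_sum]
      rfl
    have e2 : Gf (ev (pol v)) = Φ 1 5 (uu (dig n (pol v))) := by
      rw [hGf]
      exact h0.congr 1 det_one' 5 _ _ (val5_dig hn h4 (pol_deg' v))
    refine if_congr ?_ e2 rfl
    show lam (g * ev (pol v)) = c ↔ ∑ i, β i * dig n (pol v) i = c
    rw [e1]

end Pool.Agent.J4H8.HP
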