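import Pool.Agent.J4H98.HP.Jobs

/-!
# Project HP (MP_574a97_nt): job J13, from the vanishing at the cusp to the vanishing everywhere
-/

set_option autoImplicit false

open Polynomial Matrix

namespace Pool.Agent.J4H8.HP

open Pool.Agent.J4H98.HP

section basic

variable {Fq : Type} [Field Fq]

lemma term (a : Fq) (i : ℕ) : (HahnSeries.C a : HahnSeries ℤ Fq) *
    (HahnSeries.single (-1 : ℤ) (1 : Fq)) ^ i = HahnSeries.single (-(i : ℤ)) a := by
  rw [HahnSeries.single_pow, HahnSeries.C_apply, HahnSeries.single_mul_single]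
  simp

lemma emb_coeff (p : Fq[X]) (j : ℤ) : (emb Fq p).coeff j = if j ≤ 0 then p.coeff (-j).toNat else 0 := by
  unfold emb
  rw [Polynomial.coe_eval₂RingHom, Polynomial.eval₂_eq_sum_range, HahnSeries.coeff_sum]
  simp_rw [term, HahnSeries.coeff_single]
  split_ifs with h
  · obtain ⟨n, hn⟩ : ∃ n : ℕ, j = -n := ⟨(-j).toNat, by omega⟩
    subst hn
    have e : (-(-(n : ℤ))).toNat = n := by omega
    rw [e]
    rcases lt_or_ge p.natDegree n with h2 | h2
    · rw [Polynomial.coeff_eq_zero_of_natDegree_lt h2]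
      refine Finset.sum_eq_zero fun i hi => ?_
      rw [if_neg]
      intro h3
      rw [Finset.mem_range] at hi
      omega
    · rw [Finset.sum_eq_single n]
      · rw [if_pos rfl]
      · intro i _ hi
        rw [if_neg]
        omega
      · intro h3
        rw [Finset.mem_range] at h3
        omega
  · refine Finset.sum_eq_zero fun i _ => ?_
    rw [if_neg]
    omega

lemma emb_ne {p : Fq[X]} (hp : p ≠ 0) : emb Fq p ≠ 0 := by
  intro h
  have h1 := emb_coeff p (-(p.natDegree : ℤ))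
  rw [h, HahnSeries.coeff_zero, if_pos (by omega), neg_neg, Int.toNat_natCast] at h1
  exact hp (Polynomial.leadingCoeff_eq_zero.1 h1.symm)

lemma emb_inj {p r : Fq[X]} (h : emb Fq p = emb Fq r) : p = r := by
  by_contra hc
  have := emb_ne (sub_ne_zero.2 hc)
  rw [map_sub, h, sub_self] at this
  exact this rfl

lemma emb_order {p : Fq[X]} (hp : p ≠ 0) : (emb Fq p).order = -(p.natDegree : ℤ) := by
  refine le_antisymm ?_ ?_
  · refine HahnSeries.order_le_of_coeff_ne_zero ?_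
    rw [emb_coeff, if_pos (by omega), neg_neg, Int.toNat_natCast]
    exact fun h => hp (Polynomial.leadingCoeff_eq_zero.1 h)
  · rw [HahnSeries.le_order_iff_forall (emb_ne hp)]
    intro j hj
    rw [emb_coeff, if_pos (by omega), Polynomial.coeff_eq_zero_of_natDegree_lt]
    omega

lemma val_iff {x : Kinf Fq} (hx : x ≠ 0) (k : ℤ) : Val k x ↔ k ≤ x.order :=
  (HahnSeries.le_order_iff_forall hx).symm

lemma val_zero (k : ℤ) : Val k (0 : Kinf Fq) := fun _ _ => HahnSeries.coeff_zero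

lemma val_mul {x y : Kinf Fq} {a b : ℤ} (hx : Val a x) (hy : Val b y) : Val (a + b) (x * y) := by
  rcases eq_or_ne x 0 with h | h
  · rw [h, zero_mul]; exact val_zero _
  rcases eq_or_ne y 0 with h' | h'
  · rw [h', mul_zero]; exact val_zero _
  rw [val_iff h] at hx
  rw [val_iff h'] at hy
  rw [val_iff (mul_ne_zero h h'), HahnSeries.order_mul h h']
  omega

lemma val_mono {x : Kinf Fq} {a b : ℤ} (h : a ≤ b) (hx : Val b x) : Val a x :=
  fun i hi => hx i (lt_of_lt_of_le hi h)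

lemma order_inv {x : Kinf Fq} (hx : x ≠ 0) : (x⁻¹).order = -x.order := by
  have h := HahnSeries.order_mul hx (inv_ne_zero hx)
  rw [mul_inv_cancel₀ hx, HahnSeries.order_one] at h
  omega

/-- the polynomial part -/
lemma poly_part (u : Kinf Fq) : ∃ x : Fq[X], Val 1 (u - emb Fq x) := by
  obtain ⟨N, hN⟩ : ∃ N : ℕ, ∀ j : ℤ, j < -N → u.coeff j = 0 := by
    refine ⟨(-u.order).toNat, fun j hj => HahnSeries.coeff_eq_zero_of_lt_order ?_⟩
    omega
  refine ⟨∑ i ∈ Finset.range (N + 1), Polynomial.C (u.coeff (-(i : ℤ))) * X ^ i, fun j hj => ?_⟩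
  have hj0 : j ≤ 0 := by omega
  rw [HahnSeries.coeff_sub, emb_coeff, if_pos hj0, Polynomial.finsetSum_coeff]
  simp_rw [Polynomial.coeff_C_mul_X_pow]
  obtain ⟨n, hn⟩ : ∃ n : ℕ, j = -n := ⟨(-j).toNat, by omega⟩
  subst hn
  have e : (-(-(n : ℤ))).toNat = n := by omega
  rw [e]
  rcases lt_or_ge N n with h2 | h2
  · rw [hN _ (by omega), zero_sub, neg_eq_zero]
    refine Finset.sum_eq_zero fun i hi => ?_
    rw [if_neg]
    rw [Finset.mem_range] at hi
    omega
  · rw [Finset.sum_eq_single n]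
    · rw [if_pos rfl, sub_self]
    · intro i _ hi
      rw [if_neg]
      omega
    · intro h3
      rw [Finset.mem_range] at h3
      omega

end basic

section small

variable {Fq : Type} [Field Fq]

lemma pol_coeff {m : ℕ} (v : Fin m → Fq) (i : ℕ) : (pol v).coeff i = if h : i < m then v ⟨i, h⟩ else 0 := by
  unfold pol
  rw [Polynomial.finsetSum_coeff]
  simp_rw [Polynomial.coeff_C_mul_X_pow]
  split_ifs with h
  · rw [Finset.sum_eq_single ⟨i, h⟩]
    · rw [if_pos rfl]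
    · intro j _ hj
      rw [if_neg]
      intro h2
      exact hj (Fin.ext h2.symm)
    · intro h2
      exact absurd (Finset.mem_univ _) h2
  · refine Finset.sum_eq_zero fun j _ => ?_
    rw [if_neg]
    have := j.2
    omega

lemma pol_inj {m : ℕ} {v w : Fin m → Fq} (h : pol v = pol w) : v = w := by
  funext i
  have h1 := congrArg (fun p => Polynomial.coeff p i) h
  simp only [pol_coeff, i.2, dif_pos] at h1
  exact h1

lemma pol_deg {m : ℕ} (v w : Fin (m + 1) → Fq) : (pol v - pol w).natDegree ≤ m := by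
  rw [Polynomial.natDegree_le_iff_coeff_eq_zero]
  intro i hi
  rw [Polynomial.coeff_sub, pol_coeff, pol_coeff, dif_neg (by omega), dif_neg (by omega), sub_zero]

/-- the small vector -/
lemma small_vec [Fintype Fq] {n : Fq[X]} (hn : n.Monic) (h4 : n.natDegree = 4) (c d : Fq[X]) :
    ∃ c' d' : Fq[X], c'.natDegree ≤ 1 ∧ d'.natDegree ≤ 2 ∧ (c' ≠ 0 ∨ d' ≠ 0) ∧ n ∣ c * d' - d * c' := by
  classical
  obtain ⟨⟨v, w⟩, ⟨v', w'⟩, hne, heq⟩ := Fintype.exists_ne_map_eq_of_card_lt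
    (fun vw : (Fin 2 → Fq) × (Fin 3 → Fq) => fun i : Fin 4 => ((c * pol vw.2 - d * pol vw.1) %ₘ n).coeff i) (by
      simp only [Fintype.card_prod, Fintype.card_fun, Fintype.card_fin]
      rw [← pow_add]
      exact Nat.pow_lt_pow_right (Fintype.one_lt_card) (by norm_num))
  refine ⟨pol v - pol v', pol w - pol w', pol_deg v v', pol_deg w w', ?_, ?_⟩
  · by_contra hcon
    push Not at hcon
    apply hne
    rw [pol_inj (sub_eq_zero.1 hcon.1), pol_inj (sub_eq_zero.1 hcon.2)]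
  · have h1 : (c * pol w - d * pol v) %ₘ n = (c * pol w' - d * pol v') %ₘ n := by
      ext i
      rcases lt_or_ge i 4 with hi | hi
      · exact congrFun heq ⟨i, hi⟩
      · have hd : ∀ p : Fq[X], (p %ₘ n).coeff i = 0 := fun p => by
          refine Polynomial.coeff_eq_zero_of_natDegree_lt (lt_of_lt_of_le (Polynomial.natDegree_modByMonic_lt p hn ?_) ?_)
          · intro h
            rw [h, natDegree_one] at h4
            omega
          · omega
        rw [hd, hd]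
    have h2 : ((c * pol w - d * pol v) - (c * pol w' - d * pol v')) %ₘ n = 0 := by
      rw [Polynomial.sub_modByMonic, h1, sub_self]
    rw [Polynomial.modByMonic_eq_zero_iff_dvd hn] at h2
    have e : c * (pol w - pol w') - d * (pol v - pol v') =
        (c * pol w - d * pol v) - (c * pol w' - d * pol v') := by ring
    rw [e]
    exact h2

/-- the small coprime vector -/
lemma small_cop [Fintype Fq] {n : Fq[X]} (hn : n.Monic) (h4 : n.natDegree = 4) (hi : Irreducible n)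
    (c d : Fq[X]) : ∃ a' b' c' d' : Fq[X], c'.natDegree ≤ 1 ∧ d'.natDegree ≤ 2 ∧ a' * d' - b' * c' = 1 ∧
      n ∣ c * d' - d * c' := by
  classical
  obtain ⟨c₁, d₁, hc, hd, hne, hdvd⟩ := small_vec hn h4 c d
  obtain ⟨e, he⟩ : ∃ e, e = EuclideanDomain.gcd c₁ d₁ := ⟨_, rfl⟩
  obtain ⟨c₂, hc₂⟩ : e ∣ c₁ := he ▸ EuclideanDomain.gcd_dvd_left c₁ d₁
  obtain ⟨d₂, hd₂⟩ : e ∣ d₁ := he ▸ EuclideanDomain.gcd_dvd_right c₁ d₁
  have he0 : e ≠ 0 := by
    intro h0
    rw [h0, zero_mul] at hc₂ hd₂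
    rcases hne with h | h
    · exact h hc₂
    · exact h hd₂
  have hab : e = c₁ * EuclideanDomain.gcdA c₁ d₁ + d₁ * EuclideanDomain.gcdB c₁ d₁ := by
    rw [he]; exact EuclideanDomain.gcd_eq_gcd_ab c₁ d₁
  have hone : EuclideanDomain.gcdB c₁ d₁ * d₂ - (-EuclideanDomain.gcdA c₁ d₁) * c₂ = 1 := by
    generalize EuclideanDomain.gcdA c₁ d₁ = A at hab ⊢
    generalize EuclideanDomain.gcdB c₁ d₁ = B at hab ⊢
    have h1 : e * (B * d₂ - (-A) * c₂) = e * 1 := by
      rw [mul_one]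
      calc e * (B * d₂ - (-A) * c₂) = (e * c₂) * A + (e * d₂) * B := by ring
        _ = c₁ * A + d₁ * B := by rw [← hc₂, ← hd₂]
        _ = e := hab.symm
    exact mul_left_cancel₀ he0 h1
  have hcdeg : c₂.natDegree ≤ 1 := by
    rcases eq_or_ne c₁ 0 with h | h
    · rw [h] at hc₂
      have : c₂ = 0 := by
        rcases mul_eq_zero.1 hc₂.symm with h' | h'
        · exact absurd h' he0
        · exact h'
      rw [this]; simp
    · exact (Polynomial.natDegree_le_of_dvd ⟨e, by rw [hc₂]; ring⟩ h).trans hc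
  have hddeg : d₂.natDegree ≤ 2 := by
    rcases eq_or_ne d₁ 0 with h | h
    · rw [h] at hd₂
      have : d₂ = 0 := by
        rcases mul_eq_zero.1 hd₂.symm with h' | h'
        · exact absurd h' he0
        · exact h'
      rw [this]; simp
    · exact (Polynomial.natDegree_le_of_dvd ⟨e, by rw [hd₂]; ring⟩ h).trans hd
  refine ⟨_, _, c₂, d₂, hcdeg, hddeg, hone, ?_⟩
  have h1 : n ∣ e * (c * d₂ - d * c₂) := by
    have e1 : e * (c * d₂ - d * c₂) = c * d₁ - d * c₁ := by rw [hc₂, hd₂]; ring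
    rw [e1]; exact hdvd
  rcases (hi.prime.dvd_mul).1 h1 with h | h
  · exfalso
    have h2 := Polynomial.natDegree_le_of_dvd h he0
    have h3 : e.natDegree ≤ 2 := by
      rcases hne with h' | h'
      · exact (Polynomial.natDegree_le_of_dvd ⟨c₂, hc₂⟩ h').trans (by omega)
      · exact (Polynomial.natDegree_le_of_dvd ⟨d₂, hd₂⟩ h').trans (by omega)
    omega
  · exact h

end small

section fam

variable {Fq : Type} [Field Fq] [Fintype Fq] {n : Fq[X]} {N : Type} [AddCommGroup N]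
  {Φ : Matrix (Fin 2) (Fin 2) Fq[X] → ℤ → Kinf Fq → N}

/-- downward induction -/
lemma down {δ : Matrix (Fin 2) (Fin 2) Fq[X]} (hF : Fam0 n Φ) (hδ : IsUnit δ.det) {K : ℤ}
    (h : ∀ u, Φ δ K u = 0) : ∀ k, k ≤ K → ∀ u, Φ δ k u = 0 := by
  intro k hk
  obtain ⟨m, hm⟩ : ∃ m : ℕ, k = K - m := ⟨(K - k).toNat, by omega⟩
  subst hm
  clear hk
  induction m with
  | zero => simpa using h
  | succ m ih =>
    intro u
    rw [hF.sum δ hδ]
    refine Finset.sum_eq_zero fun c _ => ?_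
    have e : K - ((m + 1 : ℕ) : ℤ) + 1 = K - m := by push_cast; ring
    rw [e]
    exact ih _

lemma det_tr (x : Fq[X]) : IsUnit (!![1, x; 0, 1] : Matrix (Fin 2) (Fin 2) Fq[X]).det := by
  rw [Matrix.det_fin_two_of]; simp

lemma det_w : IsUnit (!![0, 1; 1, 0] : Matrix (Fin 2) (Fin 2) Fq[X]).det := by
  rw [Matrix.det_fin_two_of]; simp

lemma den_tr (x : Fq[X]) (u : Kinf Fq) : den !![1, x; 0, 1] u = 1 := by
  unfold den; simp

lemma num_tr (x : Fq[X]) (u : Kinf Fq) : num !![1, x; 0, 1] u = u + emb Fq x := by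
  unfold num; simp

lemma den_w (u : Kinf Fq) : den (!![0, 1; 1, 0] : Matrix (Fin 2) (Fin 2) Fq[X]) u = u := by
  unfold den; simp

lemma num_w (u : Kinf Fq) : num (!![0, 1; 1, 0] : Matrix (Fin 2) (Fin 2) Fq[X]) u = 1 := by
  unfold num; simp

/-- translation -/
lemma tr (hF : Fam0 n Φ) {δ : Matrix (Fin 2) (Fin 2) Fq[X]} (hδ : IsUnit δ.det) (x : Fq[X]) (k : ℤ)
    (u : Kinf Fq) : Φ (δ * !![1, x; 0, 1]) k u = Φ δ k (u + emb Fq x) := by
  have h := hF.moebA δ !![1, x; 0, 1] hδ (det_tr x) k u (by rw [den_tr]; exact one_ne_zero) (by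
    have e : (!![1, x; 0, 1] : Matrix (Fin 2) (Fin 2) Fq[X]) 1 0 = 0 := rfl
    rw [e, map_zero]
    exact val_zero _)
  rw [h, den_tr, num_tr, HahnSeries.order_one, div_one, mul_zero, sub_zero]

/-- if all the balls around `0` vanish, so do all the balls -/
lemma of_zero (hF : Fam0 n Φ) {k : ℤ} (hk : k ≤ 1)
    (h : ∀ δ : Matrix (Fin 2) (Fin 2) Fq[X], IsUnit δ.det → Φ δ k 0 = 0) :
    ∀ δ : Matrix (Fin 2) (Fin 2) Fq[X], IsUnit δ.det → ∀ u, Φ δ k u = 0 := by
  intro δ hδ u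
  obtain ⟨x, hx⟩ := poly_part u
  have h1 := h (δ * !![1, x; 0, 1]) (by rw [Matrix.det_mul]; exact hδ.mul (det_tr x))
  rw [tr hF hδ, zero_add] at h1
  rw [hF.congr δ hδ k u (emb Fq x) (val_mono hk hx), h1]

lemma ww : (!![0, 1; 1, 0] : Matrix (Fin 2) (Fin 2) Fq[X]) * !![0, 1; 1, 0] = 1 := by
  ext i j
  fin_cases i <;> fin_cases j <;> simp [Matrix.mul_apply]

/-- (iii) and (iv) -/
lemma all_of (hF : Fam0 n Φ)
    (h0 : ∀ δ : Matrix (Fin 2) (Fin 2) Fq[X], IsUnit δ.det → Φ δ 0 0 = 0) :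
    ∀ (k : ℤ) (δ : Matrix (Fin 2) (Fin 2) Fq[X]), IsUnit δ.det → ∀ u, Φ δ k u = 0 := by
  have h0' := of_zero hF (k := 0) (by norm_num) h0
  have hle0 : ∀ (k : ℤ), k ≤ 0 → ∀ (δ : Matrix (Fin 2) (Fin 2) Fq[X]), IsUnit δ.det → ∀ u, Φ δ k u = 0 :=
    fun k hk δ hδ => down hF hδ (h0' δ hδ) k hk
  have hwdet : ∀ δ : Matrix (Fin 2) (Fin 2) Fq[X], IsUnit δ.det → IsUnit (δ * !![0, 1; 1, 0]).det :=
    fun δ hδ => by rw [Matrix.det_mul]; exact hδ.mul det_w
  have hback : ∀ δ : Matrix (Fin 2) (Fin 2) Fq[X], δ * !![0, 1; 1, 0] * !![0, 1; 1, 0] = δ := fun δ => by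
    rw [Matrix.mul_assoc, ww, Matrix.mul_one]
  -- `u` close to `0`
  have hB : ∀ (k : ℤ), 1 ≤ k → ∀ (δ : Matrix (Fin 2) (Fin 2) Fq[X]), IsUnit δ.det → ∀ u, Val k u →
      Φ δ k u = 0 := by
    intro k hk δ hδ u hu
    have h := hF.moebB (δ * !![0, 1; 1, 0]) !![0, 1; 1, 0] (hwdet δ hδ) det_w k u
      (by show (1 : Fq[X]) ≠ 0; exact one_ne_zero) (by
        rw [den_w]
        have e : (!![0, 1; 1, 0] : Matrix (Fin 2) (Fin 2) Fq[X]) 1 0 = 1 := rfl
        rw [e, natDegree_one]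
        simpa using hu)
    have e : (!![0, 1; 1, 0] : Matrix (Fin 2) (Fin 2) Fq[X]) 1 0 = 1 := rfl
    rw [hback, e, natDegree_one] at h
    rw [h, hle0 _ (by push_cast; omega) _ (hwdet δ hδ), neg_zero]
  have key : ∀ (m : ℕ) (k : ℤ), k ≤ m → ∀ (δ : Matrix (Fin 2) (Fin 2) Fq[X]), IsUnit δ.det →
      ∀ u, Φ δ k u = 0 := by
    intro m
    induction m with
    | zero => exact fun k hk => hle0 k (by simpa using hk)
    | succ m ih =>
      intro k hk δ hδ u
      rcases lt_or_ge k (m + 1 : ℤ) with h | h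
      · exact ih k (by omega) δ hδ u
      -- translate
      obtain ⟨x, hx⟩ := poly_part u
      obtain ⟨v, hv⟩ : ∃ v, v = u - emb Fq x := ⟨_, rfl⟩
      rw [← hv] at hx
      have hu : u = v + emb Fq x := by rw [hv]; ring
      rw [hu, ← tr hF hδ]
      have hδ' : IsUnit (δ * !![1, x; 0, 1]).det := by rw [Matrix.det_mul]; exact hδ.mul (det_tr x)
      generalize δ * !![1, x; 0, 1] = δ₁ at hδ'
      by_cases hvk : Val k v
      · exact hB k (by omega) δ₁ hδ' v hvk
      have hv0 : v ≠ 0 := fun h0 => hvk (by rw [h0]; exact val_zero _)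
      rw [val_iff hv0] at hvk hx
      have h2 := hF.moebA (δ₁ * !![0, 1; 1, 0]) !![0, 1; 1, 0] (hwdet δ₁ hδ') det_w k v
        (by rw [den_w]; exact hv0) (by
          rw [den_w]
          have e : (!![0, 1; 1, 0] : Matrix (Fin 2) (Fin 2) Fq[X]) 1 0 = 1 := rfl
          rw [e, map_one, val_iff one_ne_zero, HahnSeries.order_one]
          omega)
      rw [hback, den_w] at h2
      rw [h2]
      exact ih _ (by omega) _ (hwdet δ₁ hδ') _
  intro k
  exact key k.toNat k (by omega)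

/-- (i) -/
lemma five (hn : n.Monic) (h4 : n.natDegree = 4) (hF : Fam0 n Φ)
    (h5 : ∀ b : Fq[X], Φ 1 5 (emb Fq b / emb Fq n) = 0) : ∀ k, k ≤ 5 → ∀ u, Φ 1 k u = 0 := by
  have h1 : IsUnit (1 : Matrix (Fin 2) (Fin 2) Fq[X]).det := by rw [Matrix.det_one]; exact isUnit_one
  refine down hF h1 fun u => ?_
  obtain ⟨b, hb⟩ := poly_part (emb Fq n * u)
  rw [hF.congr 1 h1 5 u (emb Fq b / emb Fq n), h5]
  have hn0 : emb Fq n ≠ 0 := emb_ne hn.ne_zero
  have e : u - emb Fq b / emb Fq n = (emb Fq n)⁻¹ * (emb Fq n * u - emb Fq b) := by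
    field_simp
  have h2 : Val 4 (emb Fq n)⁻¹ := by
    rw [val_iff (inv_ne_zero hn0), order_inv hn0, emb_order hn.ne_zero, h4]
    norm_num
  have h3 := val_mul h2 hb
  rw [← e] at h3
  exact h3

/-- (ii) -/
lemma origin (hn : n.Monic) (h4 : n.natDegree = 4) (hi : Irreducible n) (hF : Fam0 n Φ)
    (h5 : ∀ k, k ≤ 5 → ∀ u, Φ 1 k u = 0) (δ : Matrix (Fin 2) (Fin 2) Fq[X]) (hδ : IsUnit δ.det) :
    Φ δ 0 0 = 0 := by
  obtain ⟨a, b, c, d, hc, hd, hdet, hdvd⟩ := small_cop hn h4 hi (δ 1 0) (δ 1 1)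
  obtain ⟨δ', hδ'⟩ : ∃ δ' : Matrix (Fin 2) (Fin 2) Fq[X], δ' = !![a, b; c, d] := ⟨_, rfl⟩
  have hdet' : δ'.det = 1 := by rw [hδ', Matrix.det_fin_two_of, hdet]
  have hu' : IsUnit δ'.det := by rw [hdet']; exact isUnit_one
  have hu1 : IsUnit (1 : Matrix (Fin 2) (Fin 2) Fq[X]).det := by rw [Matrix.det_one]; exact isUnit_one
  have hprod : (δ * δ'.adjugate) * δ' = δ := by
    rw [Matrix.mul_assoc, Matrix.adjugate_mul, hdet', one_smul, Matrix.mul_one]
  have hγ : IsUnit (δ * δ'.adjugate).det := by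
    have h1 := congrArg Matrix.det hprod
    rw [Matrix.det_mul, hdet', mul_one] at h1
    rw [h1]; exact hδ
  have hγ10 : n ∣ (δ * δ'.adjugate) 1 0 := by
    have e : (δ * δ'.adjugate) 1 0 = δ 1 0 * d - δ 1 1 * c := by
      rw [hδ', Matrix.adjugate_fin_two_of, Matrix.mul_apply, Fin.sum_univ_two]
      simp
      ring
    rw [e]; exact hdvd
  have h1 := hF.inv δ' hu' _ hγ hγ10
  rw [hprod] at h1
  rw [h1]
  have e10 : δ' 1 0 = c := by rw [hδ']; rfl
  have e11 : δ' 1 1 = d := by rw [hδ']; rfl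
  have hden : den δ' (0 : Kinf Fq) = emb Fq d := by
    unfold den
    rw [e10, e11, mul_zero, zero_add]
  have hcase : (d ≠ 0 ∧ (c = 0 ∨ c.natDegree < d.natDegree)) ∨
      (c ≠ 0 ∧ (d = 0 ∨ d.natDegree ≤ c.natDegree)) := by
    by_cases hd0 : d = 0
    · right
      refine ⟨?_, Or.inl hd0⟩
      intro hc0
      rw [hd0, hc0] at hdet
      simp at hdet
    · by_cases hc0 : c = 0
      · exact Or.inl ⟨hd0, Or.inl hc0⟩
      · rcases lt_or_ge c.natDegree d.natDegree with h | h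
        · exact Or.inl ⟨hd0, Or.inr h⟩
        · exact Or.inr ⟨hc0, Or.inr h⟩
  rcases hcase with ⟨hd0, hcd⟩ | ⟨hc0, hcd⟩
  · have h2 := hF.moebA 1 δ' hu1 hu' 0 0 (by rw [hden]; exact emb_ne hd0) (by
      rw [hden, emb_order hd0, e10]
      rcases hcd with h | h
      · rw [h, map_zero]; exact val_zero _
      · rcases eq_or_ne c 0 with h' | h'
        · rw [h', map_zero]; exact val_zero _
        · rw [val_iff (emb_ne h'), emb_order h']
          omega)
    rw [Matrix.one_mul] at h2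
    rw [h2, hden, emb_order hd0]
    exact h5 _ (by omega) _
  · have h2 := hF.moebB 1 δ' hu1 hu' 0 0 (by rw [e10]; exact hc0) (by
      rw [hden, e10]
      rcases hcd with h | h
      · rw [h, map_zero]; exact val_zero _
      · rcases eq_or_ne d 0 with h' | h'
        · rw [h', map_zero]; exact val_zero _
        · rw [val_iff (emb_ne h'), emb_order h']
          omega)
    rw [Matrix.one_mul] at h2
    rw [h2, e10, h5 _ (by omega) _, neg_zero]

end fam

theorem t_CORE3 : S_CORE3 := by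
  intro Fq _ _ n N _ Φ hn h4 hi hF hb δ hδ k u
  exact all_of hF.toFam0 (origin hn h4 hi hF.toFam0 (five hn h4 hF.toFam0 hb)) k δ hδ u

end Pool.Agent.J4H8.HP
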